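import Pool.Agent.T2h63.AH.Defs
import Pool.Agent.Y121.AHS.Conv2

/-!
# The systems of the absolute Hodge classes and of all Hodge classes
-/

open CategoryTheory AlgebraicGeometry TensorProduct

universe u

namespace Pool.Agent.T2h63.AH

open Pool.Agent.H914 Pool.Agent.H914.VarClass Pool.Agent.H914.VarClass.Obj
  Pool.Agent.H914.WeilCohomology
open Pool.Agent.Y121.AHS
open Pool.Agent.Y121.AH (hodgePred absPred)

variable {k : Type u} [Field k] {𝒱 : VarClass k} {ops : CycleOps 𝒱}
  {T : Pool.Agent.Y121.AHS.HodgeTheory ops}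

/-- The Hodge classes are a system of classes. -/
noncomputable def hodgeSystem (T : Pool.Agent.Y121.AHS.HodgeTheory ops) : ClassSystem T where
  P X j c := IsHodge T X j c
  hodge _ _ _ h := h
  cyc _ _ _ hz := (hodgePred (toH T)).cl hz
  lin _ _ := ⟨fun _ _ ha hb => (hodgePred (toH T)).add ha hb,
    fun r _ ha => (hodgePred (toH T)).smul r ha⟩
  mul _ _ _ _ _ ha hb := (hodgePred (toH T)).mul ha hb
  map _ _ f _ _ ha := (hodgePred (toH T)).map f ha
  push _ _ f _ _ _ h ha := (hodgePred (toH T)).push f h ha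

/-- The absolute Hodge classes, for the conjugates `D` of `T`, are a system of classes. -/
noncomputable def absSystem (D : Full.Conjugates T) : ClassSystem T where
  P X j c := Full.IsAbsHodge D X j c
  hodge _ _ _ h := h.1
  cyc _ _ _ hz := Full.isAbsHodge_iff.1 ((absPred (Full.toD D)).cl hz)
  lin _ _ := ⟨fun _ _ ha hb => Full.isAbsHodge_iff.1
      ((absPred (Full.toD D)).add (Full.isAbsHodge_iff.2 ha) (Full.isAbsHodge_iff.2 hb)),
    fun r _ ha => Full.isAbsHodge_iff.1
      ((absPred (Full.toD D)).smul r (Full.isAbsHodge_iff.2 ha))⟩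
  mul _ _ _ _ _ ha hb := Full.isAbsHodge_iff.1
    ((absPred (Full.toD D)).mul (Full.isAbsHodge_iff.2 ha) (Full.isAbsHodge_iff.2 hb))
  map _ _ f _ _ ha := Full.isAbsHodge_iff.1
    ((absPred (Full.toD D)).map f (Full.isAbsHodge_iff.2 ha))
  push _ _ f _ _ _ h ha := Full.isAbsHodge_iff.1
    ((absPred (Full.toD D)).push f h (Full.isAbsHodge_iff.2 ha))

end Pool.Agent.T2h63.AH
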