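import Pool.Agent.Y121.AHS.Defs
import Pool.Agent.N996.FP.ExtX

/-!
# The Hodge Lie algebra, its level, and full faithfulness of the Hodge realization: definitions

In the intended use `k` is an algebraically closed field with an embedding `σ` into the complex
numbers, the varieties are the smooth projective ones over `k`, `T` is the theory
`X ↦ H(σ X, ℚ)` (so `T.W.K` is the field of rational numbers), and `𝒜` is the system of the absolute
Hodge classes.
-/

open CategoryTheory AlgebraicGeometry TensorProduct

universe u

namespace Pool.Agent.T2h63.AH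

open Pool.Agent.H914 Pool.Agent.H914.VarClass Pool.Agent.H914.VarClass.Obj
  Pool.Agent.H914.WeilCohomology
open Pool.Agent.Y121.AHS Pool.Agent.N996.BP Pool.Agent.N996.FP

section Lie

variable {E : Type} [AddCommGroup E] [Module ℂ E]

/-- The linear operators on `E`. -/
abbrev LinOp (E : Type) [AddCommGroup E] [Module ℂ E] : Type := E →ₗ[ℂ] E

/-- The sum of two operators. -/
def opAdd (A B : LinOp E) : LinOp E := A + B

/-- The multiple of an operator. -/
def opSmul (z : ℂ) (A : LinOp E) : LinOp E := z • A

/-- The bracket `A B - B A` of two operators. -/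
def opBr (A B : LinOp E) : LinOp E := A ∘ₗ B - B ∘ₗ A

/-- The operator is zero. -/
def IsZeroOp (A : LinOp E) : Prop := A = 0

/-- The element `x` of `E` is an eigenvector of `A` with the integral eigenvalue `m`. -/
def IsEig (A : LinOp E) (m : ℤ) (x : E) : Prop := A x = (m : ℂ) • x

end Lie

/-- The decompositions of `ℂ ⊗ H`. -/
abbrev Decomp (K H : Type) [Field K] [Algebra K ℂ] [Ring H] [Algebra K H] : Type :=
  ℤ → ℤ → Submodule ℂ (Ext K ℂ H)

section Hodge

variable {K H : Type} [Field K] [Algebra K ℂ] [Ring H] [Algebra K H] (pq : Decomp K H)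

/-- The element `x` is in the part `pq p q`. -/
def Mem (p q : ℤ) (x : Ext K ℂ H) : Prop := x ∈ pq p q

/-- The action `z ⊗ c ↦ τ(z) ⊗ c` of an automorphism `τ` of the field of complex numbers over `K` on
`ℂ ⊗ H`. -/
noncomputable def extGal (τ : ℂ ≃ₐ[K] ℂ) (x : Ext K ℂ H) : Ext K ℂ H :=
  TensorProduct.map τ.toLinearMap (LinearMap.id : H →ₗ[K] H) (show ℂ ⊗[K] H from x)

/-- The Hodge Lie algebra of the rational Hodge structure `H` with the decomposition `pq`: the complex
Lie algebra of operators on `ℂ ⊗ H` generated by the conjugates, by all automorphisms `τ` of the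
field of complex numbers, of the operator which multiplies the elements of `pq p q` by `p - q`. (It is
the complexification of the Lie algebra of the Hodge group, the special Mumford-Tate group.) -/
inductive LieOf : LinOp (Ext K ℂ H) → Prop
  | conj (τ : ℂ ≃ₐ[K] ℂ) {A : LinOp (Ext K ℂ H)} :
      (∀ p q x, Mem pq p q x → IsEig A (p - q) (extGal τ x)) → LieOf A
  | add {A B : LinOp (Ext K ℂ H)} : LieOf A → LieOf B → LieOf (opAdd A B)
  | smul (z : ℂ) {A : LinOp (Ext K ℂ H)} : LieOf A → LieOf (opSmul z A)
  | bracket {A B : LinOp (Ext K ℂ H)} : LieOf A → LieOf B → LieOf (opBr A B)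

/-- The operator `A` is of type `(j, -j)`: it maps `pq p q` to `pq (p + j) (q - j)`. -/
def OfType (j : ℤ) (A : LinOp (Ext K ℂ H)) : Prop :=
  ∀ p q x, Mem pq p q x → Mem pq (p + j) (q - j) (A x)

/-- The operator `A` is in the Hodge Lie algebra and of type `(j, -j)` for some `j` with `w < |j|`. -/
def IsHigh (w : ℕ) (A : LinOp (Ext K ℂ H)) : Prop :=
  LieOf pq A ∧ ∃ j : ℤ, (w : ℤ) < |j| ∧ OfType pq j A

/-- The ideal of the Hodge Lie algebra generated by the conjugates, by all automorphisms `τ` of the
field of complex numbers, of its elements of the types `(j, -j)` with `w < |j|`. (It is the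
complexification of an ideal of the Lie algebra of the Hodge group over the field of rational
numbers.) -/
inductive HighIdeal (w : ℕ) : LinOp (Ext K ℂ H) → Prop
  | mem {A : LinOp (Ext K ℂ H)} : IsHigh pq w A → HighIdeal w A
  | conj (τ : ℂ ≃ₐ[K] ℂ) {A B : LinOp (Ext K ℂ H)} :
      (∀ x, B (extGal τ x) = extGal τ (A x)) → HighIdeal w A → HighIdeal w B
  | add {A B : LinOp (Ext K ℂ H)} : HighIdeal w A → HighIdeal w B → HighIdeal w (opAdd A B)
  | smul (z : ℂ) {A : LinOp (Ext K ℂ H)} : HighIdeal w A → HighIdeal w (opSmul z A)
  | bracket {A B : LinOp (Ext K ℂ H)} : LieOf pq A → HighIdeal w B → HighIdeal w (opBr A B)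

/-- The Hodge Lie algebra contains no nonzero operators of type `(j, -j)` with `w < |j|`. -/
def LowLie (w : ℕ) : Prop := ∀ A, IsHigh pq w A → IsZeroOp A

/-- The Hodge Lie algebra is generated, as an ideal of itself, by the conjugates of its elements of
the types `(j, -j)` with `w < |j|`. -/
def HighLie (w : ℕ) : Prop := ∀ A, LieOf pq A → HighIdeal pq w A

/-- The Hodge structure is of dimension at most `d` (`pq p q = 0` unless `p` and `q` are between `0`
and `d`), the complex conjugation maps `pq p q` to `pq q p`, and `ψ` is a polarisation: the rational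
bilinear form `ψ` vanishes on `pq p q × pq r s` unless `(r, s) = (q, p)`, and `i ^ (p - q) ψ(x, x̄)` is
a positive real number for all nonzero `x` in `pq p q`. -/
structure Polarised (hK : IsRat K) (d : ℕ) (ψ : Bil K H) : Prop where
  range : ∀ p q x, Mem pq p q x → x ≠ 0 → 0 ≤ p ∧ p ≤ d ∧ 0 ≤ q ∧ q ≤ d
  conj : ∀ p q x, Mem pq p q x → Mem pq q p (extConj hK x)
  orth : ∀ p q r s x y, Mem pq p q x → Mem pq r s y → (r ≠ q ∨ s ≠ p) → extBil ψ x y = 0
  pos : ∀ p q x, Mem pq p q x → x ≠ 0 →
    ∃ r : ℝ, 0 < r ∧ Complex.I ^ (p - q) * extBil ψ x (extConj hK x) = r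

end Hodge

section Alg

variable {K A B C : Type} [Field K] [Ring A] [Algebra K A] [Ring B] [Algebra K B] [Ring C]
  [Algebra K C]

/-- The linear maps from `A` to `B`. -/
abbrev LinHom (K A B : Type) [Field K] [Ring A] [Algebra K A] [Ring B] [Algebra K B] : Type :=
  A →ₗ[K] B

/-- The equality `f = q g p`. -/
def IsCut (p : LinHom K A A) (q : LinHom K B B) (g f : LinHom K A B) : Prop := f = q ∘ₗ g ∘ₗ p

/-- The operator `p` is idempotent and has the property `S`. -/
def IsProj (S : LinHom K A A → Prop) (p : LinHom K A A) : Prop := S p ∧ p ∘ₗ p = p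

/-- The linear map `f` is zero or `f = q g p` for some `g` with the property `S`. -/
def InCut (p : LinHom K A A) (q : LinHom K B B) (S : LinHom K A B → Prop) (f : LinHom K A B) :
    Prop :=
  f = 0 ∨ ∃ g, S g ∧ IsCut p q g f

/-- `f = q f p`, and `f` maps `pq a b` to `pq' (a + s) (b + s)`. -/
def IsMor [Algebra K ℂ] (pq : Decomp K A) (pq' : Decomp K B) (s : ℤ) (p : LinHom K A A)
    (q : LinHom K B B) (f : LinHom K A B) : Prop :=
  IsCut p q f f ∧ ∀ a b x, Mem pq a b x → Mem pq' (a + s) (b + s) (extMap K ℂ f x)

/-- For all idempotent operators `p` with the property `R` and `q` with the property `S`, the linear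
maps `f = q f p` which map `pq a b` to `pq' (a + s) (b + s)` are the maps `f = q g p` where `g = 0` or
`g` has the property `C`. -/
def IsFull [Algebra K ℂ] (pq : Decomp K A) (pq' : Decomp K B) (R : LinHom K A A → Prop)
    (S : LinHom K B B → Prop) (C : LinHom K A B → Prop) (s : ℤ) : Prop :=
  ∀ p q, IsProj R p → IsProj S q → ∀ f, IsMor pq pq' s p q f ↔ InCut p q C f

/-- `g` is the operator `x ↦ s (c · r x)` for an element `c` with the property `P j`, `j = d + m`. -/
def IsOpOf (r : A →ₐ[K] C) (s : LinHom K C B) (P : ℕ → C → Prop) (d : ℕ) (m : ℤ)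
    (g : LinHom K A B) : Prop :=
  ∃ (j : ℕ) (c : C), (j : ℤ) = d + m ∧ P j c ∧ corrOp r s c = g

/-- The element `c` is a linear combination of products `r(a) s(b)` where `a` has the property `P` and
`b` has the property `Q`. -/
def InProducts (r : A →ₐ[K] C) (s : B →ₐ[K] C) (P : A → Prop) (Q : B → Prop) (c : C) : Prop :=
  c ∈ Submodule.span K {x | ∃ a b, P a ∧ Q b ∧ r a * s b = x}

/-- The elements with the property `P` form a subspace. -/
structure IsSpace (P : A → Prop) (K : Type) [Field K] [Algebra K A] : Prop where
  add : ∀ a b, P a → P b → P (a + b)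
  smul : ∀ (r : K) a, P a → P (r • a)

/-- The product of elements with the properties `P i` and `P j` has the property `P (i + j)`. -/
def MulStable (P : ℕ → A → Prop) : Prop := ∀ i j a b, P i a → P j b → P (i + j) (a * b)

/-- The homomorphism `f` maps elements with the property `P j` to elements with the property
`Q j`. -/
def MapStable (f : A →ₐ[K] B) (P : ℕ → A → Prop) (Q : ℕ → B → Prop) : Prop :=
  ∀ j a, P j a → Q j (f a)

/-- The linear map `g` maps elements with the property `P j` to elements with the property `Q l`,
`l + d = j + e`. -/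
def PushStable (g : LinHom K A B) (d e : ℕ) (P : ℕ → A → Prop) (Q : ℕ → B → Prop) : Prop :=
  ∀ j l a, l + d = j + e → P j a → Q l (g a)

/-- The codimension of the span of the elements with the property `P`. -/
noncomputable def codim (K : Type) {A : Type} [Field K] [Ring A] [Algebra K A] (P : A → Prop) :
    ℕ :=
  Module.finrank K (A ⧸ Submodule.span K {a | P a})

end Alg

variable {k : Type u} [Field k] {𝒱 : VarClass k} {ops : CycleOps 𝒱}

/-- The Hodge Lie algebra of `X` has level at most `w`: it contains no nonzero operators of type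
`(j, -j)` with `w < |j|`. (The level is at most one for abelian varieties and for all varieties
whose motive belongs to the category generated by abelian varieties.) -/
def LevelLE (T : HodgeTheory ops) (X : 𝒱.Obj) (w : ℕ) : Prop := LowLie (T.pq X) w

/-- The Lie algebra of the Hodge group of `X` over the field of rational numbers has no nonzero
quotient of level at most `w`: it is generated, as an ideal of itself, by the conjugates of its
complex elements of the types `(j, -j)` with `w < |j|`. (If the Hodge group is semisimple, this means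
that every simple ideal over the field of rational numbers has nonzero complex elements of such a
type.) -/
def HasHighLevel (T : HodgeTheory ops) (X : 𝒱.Obj) (w : ℕ) : Prop := HighLie (T.pq X) w

/-- `ψ` is a polarisation of the Hodge structure `H(X)`. -/
def IsPol (T : HodgeTheory ops) (X : 𝒱.Obj) (ψ : Bil T.W.K (T.W.H X)) : Prop :=
  Polarised (T.pq X) T.rat X.dim ψ

/-- The centre of the algebra of the endomorphisms of the Hodge structure `H(X)` consists of
self-adjoint endomorphisms for the polarisation `ψ`: it is a product of totally real fields. -/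
def RealCentre (T : HodgeTheory ops) (X : 𝒱.Obj) (ψ : Bil T.W.K (T.W.H X)) : Prop :=
  CentreAdj (T.pq X) ψ

/-- The class `c` is a Hodge class of some degree. -/
def IsSomeHodge (T : HodgeTheory ops) (X : 𝒱.Obj) (c : T.W.H X) : Prop := ∃ j, IsHodge T X j c

/-- The transcendental Betti number of `X`: the sum of the Betti numbers minus the dimension of the
space spanned by the Hodge classes. -/
noncomputable def trBetti (T : HodgeTheory ops) (X : 𝒱.Obj) : ℕ := codim T.W.K (IsSomeHodge T X)

/-- A system of Hodge classes which is stable under linear combinations, products, pull-backs and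
push-forwards and contains the classes of algebraic cycles: `P X j c` means that the class `c` of
degree `2 j` on `X` belongs to the system. (The absolute Hodge classes of Deligne, the motivated
classes of André and the classes of algebraic cycles are such systems.) -/
structure ClassSystem (T : HodgeTheory ops) where
  /-- the classes of the system -/
  P : ∀ X : 𝒱.Obj, ℕ → T.W.H X → Prop
  hodge : ∀ X j c, P X j c → IsHodge T X j c
  cyc : ∀ (X : 𝒱.Obj) j (z : X.Cycles), X.IsCyc j z → P X j (T.W.cl X z)
  lin : ∀ X j, IsSpace (P X j) T.W.K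
  mul : ∀ X, MulStable (P X)
  map : ∀ X Y (f : X ⟶ Y), MapStable (T.W.map f) (P Y) (P X)
  push : ∀ X Y (f : X ⟶ Y), PushStable (T.W.push f) X.dim Y.dim (P X) (P Y)

variable {T : HodgeTheory ops} (𝒜 : ClassSystem T)

/-- The linear map `g` from `H(X)` to `H(Y)` is the operator `x ↦ pr₂_* (c · pr₁^* x)` of a
class `c` on `X × Y` of degree `2 (dim X + s)` in the system `𝒜`. The motives for the system `𝒜` are
the triples `(X, p, m)` with an idempotent operator `p` of this kind on `H(X)`, where `s = 0`, and
an integer `m`. -/
def IsCorr (X Y : 𝒱.Obj) (s : ℤ) (g : LinHom T.W.K (T.W.H X) (T.W.H Y)) : Prop :=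
  IsOpOf (T.W.map (fst X Y)) (T.W.push (snd X Y)) (𝒜.P (X.prod Y)) X.dim s g

/-- The Hodge realization is fully faithful on the motives `(X, p, m)` of the varieties `X` in the
class `𝒲`: the morphisms of rational Hodge structures from `p H(X)(m)` to `q H(Y)(n)` (the linear
maps `f = q f p` from `H(X)` to `H(Y)` which map the classes of type `(a, b)` to classes of
type `(a + n - m, b + n - m)`) are the maps given by the morphisms of motives from `(X, p, m)` to
`(Y, q, n)` (zero and the maps `f = q g p` where `g` is the operator of a class in the system `𝒜` of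
degree `2 (dim X + n - m)`). -/
def FullyFaithfulOn (𝒲 : 𝒱.Obj → Prop) : Prop :=
  ∀ X Y, 𝒲 X → 𝒲 Y → ∀ m n : ℤ, IsFull (T.pq X) (T.pq Y) (IsCorr 𝒜 X X 0) (IsCorr 𝒜 Y Y 0)
    (IsCorr 𝒜 X Y (n - m)) (n - m)

/-- All Hodge classes on `X` belong to the system `𝒜`. -/
def AllIn (X : 𝒱.Obj) : Prop := ∀ (j : ℕ) (c : T.W.H X), IsHodge T X j c → 𝒜.P X j c

/-- The varieties isomorphic to products of varieties in the class `𝒵`. (The motives of these
varieties generate the same tensor category as those of the varieties in `𝒵`.) -/
inductive Products (𝒵 : Set 𝒱.Obj) : 𝒱.Obj → Prop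
  | mem {Z : 𝒱.Obj} : Z ∈ 𝒵 → Products 𝒵 Z
  | prod {Y Z : 𝒱.Obj} : Products 𝒵 Y → Products 𝒵 Z → Products 𝒵 (Y.prod Z)
  | iso {Y Z : 𝒱.Obj} : Nonempty (Y ≅ Z) → Products 𝒵 Y → Products 𝒵 Z

/-- The class `c` on `Y × Z` is a linear combination of products `pr₁^* a · pr₂^* b` where `a` is a
Hodge class on `Y` and `b` is a Hodge class on `Z`. -/
def Splits (T : HodgeTheory ops) (Y Z : 𝒱.Obj) (c : T.W.H (Y.prod Z)) : Prop :=
  InProducts (T.W.map (fst Y Z)) (T.W.map (snd Y Z)) (IsSomeHodge T Y) (IsSomeHodge T Z) c

end Pool.Agent.T2h63.AH
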