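import Pool.Agent.H914R2.WeilBasic
import Pool.Agent.Y133.Half.PwDefs

/-!
# Natural families of derivations
-/

open CategoryTheory AlgebraicGeometry

universe u v

namespace Pool.Agent.T2h63.AH

open Pool.Agent.H914 Pool.Agent.H914.VarClass Pool.Agent.H914.VarClass.Obj
  Pool.Agent.H914.WeilCohomology
open Pool.Agent.Y133.Half (pw)

variable {k : Type u} [Field k] {𝒱 : VarClass k} {ops : CycleOps 𝒱}
  {V : WeilCohomology.{u, v} ops} {X Y Z : 𝒱.Obj}

/-- Families of operators. -/
abbrev Fam (V : WeilCohomology.{u, v} ops) := ∀ Y : 𝒱.Obj, Module.End V.K (V.H Y)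

/-- The operators are derivations which commute with pull-backs. -/
structure IsDer (F : Fam V) : Prop where
  mul : ∀ (Y : 𝒱.Obj) (a b : V.H Y), F Y (a * b) = F Y a * b + a * F Y b
  map : ∀ {X Y : 𝒱.Obj} (f : X ⟶ Y) (b : V.H Y), F X (V.map f b) = V.map f (F Y b)

variable {F G : Fam V}

lemma IsDer.add (hF : IsDer F) (hG : IsDer G) : IsDer (fun Y => F Y + G Y) where
  mul Y a b := by
    simp only [LinearMap.add_apply, hF.mul, hG.mul, add_mul, mul_add]
    abel
  map f b := by simp only [LinearMap.add_apply, hF.map, hG.map, map_add]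

lemma IsDer.smul (c : V.K) (hF : IsDer F) : IsDer (fun Y => c • F Y) where
  mul Y a b := by
    simp only [LinearMap.smul_apply, hF.mul, smul_add, smul_mul_assoc, mul_smul_comm]
  map f b := by simp only [LinearMap.smul_apply, hF.map, map_smul]

lemma IsDer.bra (hF : IsDer F) (hG : IsDer G) : IsDer (fun Y => F Y * G Y - G Y * F Y) where
  mul Y a b := by
    simp only [LinearMap.sub_apply, Module.End.mul_apply, hF.mul, hG.mul, map_add, sub_mul,
      mul_sub]
    abel
  map f b := by
    simp only [LinearMap.sub_apply, Module.End.mul_apply, hF.map, hG.map, map_sub]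

/-- The action on external products. -/
lemma IsDer.ext (hF : IsDer F) (a : V.H X) (b : V.H Y) :
    F (X.prod Y) (V.map (fst X Y) a * V.map (snd X Y) b) =
      V.map (fst X Y) (F X a) * V.map (snd X Y) b +
        V.map (fst X Y) a * V.map (snd X Y) (F Y b) := by
  rw [hF.mul, hF.map, hF.map]

/-- Two families which agree on two varieties agree on their product. -/
lemma IsDer.ext_prod (hF : IsDer F) (hG : IsDer G) (hX : F X = G X) (hY : F Y = G Y) :
    F (X.prod Y) = G (X.prod Y) := by
  apply LinearMap.ext
  intro c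
  refine V.kunneth_induction (p := fun c => F (X.prod Y) c = G (X.prod Y) c) ?_ ?_ c
  · intro a b ha hb; rw [map_add, map_add, ha, hb]
  · intro i j a _ b _
    rw [hF.ext, hG.ext, hX, hY]

lemma IsDer.ext_pw (hF : IsDer F) (hG : IsDer G) (hX : F X = G X) :
    ∀ n, F (pw X n) = G (pw X n)
  | 0 => hX
  | n + 1 => hF.ext_prod hG (hF.ext_pw hG hX n) hX

/-- The family of zero operators. -/
lemma IsDer.zero : IsDer (V := V) (fun _ => 0) where
  mul Y a b := by simp
  map f b := by simp

/-- A family which vanishes on `Z` vanishes on the varieties isomorphic to `Z`. -/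
lemma IsDer.iso (hF : IsDer F) (e : X ≅ Y) (hX : F X = 0) : F Y = 0 := by
  apply LinearMap.ext
  intro b
  have h1 : V.map e.inv (V.map e.hom b) = b := by
    rw [← V.map_comp, e.inv_hom_id, V.map_id]
  rw [← h1, hF.map, hX, LinearMap.zero_apply, LinearMap.zero_apply, map_zero]

end Pool.Agent.T2h63.AH
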