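import Pool.Agent.T2h63.AH.Split
import Pool.Agent.Y121.AHS.Conv2
import Pool.Agent.Y121.AH.HR
import Pool.Agent.H914R2.GBasic

/-!
# Full faithfulness of the Hodge realization and absolute Hodge classes
-/

open CategoryTheory AlgebraicGeometry TensorProduct

universe u v

namespace Pool.Agent.T2h63.AH

open Module
open Pool.Agent.H914 Pool.Agent.H914.VarClass Pool.Agent.H914.VarClass.Obj
  Pool.Agent.H914.WeilCohomology
open Pool.Agent.Y121.AH (CW em em_add em_zero em_smul em_mul em_map em_push em_gr em_injective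
  pq_ind pq_ext isInternal dia dia_apply em_corr mem_of_em_mem hodgePred absPred)

variable {k : Type u} [Field k] {𝒱 : VarClass k} {ops : CycleOps 𝒱}

lemma corr_surj (W : WeilCohomology.{u, v} ops) {X Y : 𝒱.Obj} (f : W.H X →ₗ[W.K] W.H Y) :
    ∃ c : W.H (X.prod Y), W.corr c = f := by
  set θ : W.H (X.prod Y) →ₗ[W.K] (W.H X →ₗ[W.K] W.H Y) :=
    ⟨⟨fun c => W.corr c, fun c d => W.corr_add c d⟩, fun q c => W.corr_smul q c⟩ with hθ
  have hinj : Function.Injective θ := by
    intro c d h
    rw [← sub_eq_zero]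
    apply corr_inj (W := W)
    have h1 : θ (c - d) = 0 := by rw [map_sub, h, sub_self]
    exact h1
  have hdim : Module.finrank W.K (W.H (X.prod Y)) =
      Module.finrank W.K (W.H X →ₗ[W.K] W.H Y) := by
    have e1 := (LinearEquiv.ofBijective _ (W.kunneth X Y)).finrank_eq
    rw [← e1, Module.finrank_tensorProduct, Module.finrank_linearMap]
  exact (LinearMap.injective_iff_surjective_of_finrank_eq_finrank hdim).1 hinj f

section Lop

variable (S : Pool.Agent.Y121.AH.HodgeTheory ops) {X Y : 𝒱.Obj}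

/-- The operator which multiplies the classes of type `(p, q)` by `a p + b q`. -/
noncomputable def lop (a b : ℤ) (X : 𝒱.Obj) : Module.End (CW S).K ((CW S).H X) :=
  dia (isInternal S X) fun r => ((a * r.1 + b * r.2 : ℤ) : (CW S).K)

variable {S} {a b : ℤ}

lemma lop_pq {p q : ℤ} {x : (CW S).H X} (hx : x ∈ S.pq X p q) :
    lop S a b X x = ((a * p + b * q : ℤ) : (CW S).K) • x :=
  dia_apply (isInternal S X) _ (i := (p, q)) hx

lemma lop_isDer : IsDer (V := CW S) (lop S a b) where
  mul X x y := by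
    refine pq_ind S (p := fun x => lop S a b X (x * y) = lop S a b X x * y + x * lop S a b X y)
      ?_ ?_ ?_ x
    · intro p q x hx
      refine pq_ind S (p := fun y => lop S a b X (x * y) =
        lop S a b X x * y + x * lop S a b X y) ?_ ?_ ?_ y
      · intro c d y hy
        rw [lop_pq hx, lop_pq hy, lop_pq (S.dec.mul hx hy), smul_mul_assoc, mul_smul_comm,
          ← add_smul, ← Int.cast_add]
        congr 2
        ring
      · intro y z hy hz
        rw [mul_add, map_add, hy, hz, map_add, mul_add, mul_add]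
        abel
      · simp
    · intro x z hx hz
      rw [add_mul, map_add, hx, hz, map_add, add_mul, add_mul]
      abel
    · simp
  map {X Y} f y := by
    refine pq_ind S (p := fun y => lop S a b X ((CW S).map f y) = (CW S).map f (lop S a b Y y))
      ?_ ?_ ?_ y
    · intro p q y hy
      rw [lop_pq hy, lop_pq (S.dec.map f hy), map_smul]
    · intro y z hy hz; rw [map_add, map_add, hy, hz, map_add, map_add]
    · rw [map_zero, map_zero, map_zero, map_zero]

lemma lop_push (f : X ⟶ Y) (x : (CW S).H X) : lop S a b Y ((CW S).push f x) =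
    (CW S).push f (lop S a b X x) +
      (((a + b) * (Y.dim - X.dim) : ℤ) : (CW S).K) • (CW S).push f x := by
  refine pq_ind S (p := fun x => lop S a b Y ((CW S).push f x) =
    (CW S).push f (lop S a b X x) +
      (((a + b) * (Y.dim - X.dim) : ℤ) : (CW S).K) • (CW S).push f x) ?_ ?_ ?_ x
  · intro p q x hx
    rw [lop_pq hx, lop_pq (S.dec.push f hx), map_smul, ← add_smul, ← Int.cast_add]
    congr 2
    ring
  · intro y z hy hz
    rw [map_add, map_add, hy, hz, map_add, map_add, smul_add]
    abel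
  · simp

/-- The action on the class of a correspondence. -/
lemma corr_lop (c : (CW S).H (X.prod Y)) : (CW S).corr (lop S a b (X.prod Y) c) =
    lop S a b Y ∘ₗ (CW S).corr c - (CW S).corr c ∘ₗ lop S a b X +
      (((a + b) * X.dim : ℤ) : (CW S).K) • (CW S).corr c := by
  apply LinearMap.ext
  intro x
  have h1 := (lop_isDer (S := S) (a := a) (b := b)).mul _ c ((CW S).map (fst X Y) x)
  rw [(lop_isDer (S := S) (a := a) (b := b)).map] at h1
  have h2 := lop_push (S := S) (a := a) (b := b) (snd X Y) (c * (CW S).map (fst X Y) x)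
  rw [h1, map_add] at h2
  simp only [LinearMap.add_apply, LinearMap.sub_apply, LinearMap.comp_apply, corr_apply,
    LinearMap.smul_apply]
  rw [h2]
  have h3 : ((a + b) * ((Y.dim : ℤ) - (X.prod Y).dim) : ℤ) = -((a + b) * X.dim) := by
    rw [dim_prod]; push_cast; ring
  rw [h3, Int.cast_neg, neg_smul]
  abel

/-- A joint eigenvector has a type. -/
lemma pq_of_lop {m : ℤ} {x : (CW S).H X}
    (h1 : lop S 1 0 X x = (m : (CW S).K) • x) (h2 : lop S 0 1 X x = (m : (CW S).K) • x) :
    x ∈ S.pq X m m := by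
  classical
  set M₁ : Module.End (CW S).K ((CW S).H X) := dia (isInternal S X) fun r =>
    if r.1 = m then 0 else (((r.1 - m : ℤ) : (CW S).K))⁻¹ with hM₁
  set M₂ : Module.End (CW S).K ((CW S).H X) := dia (isInternal S X) fun r =>
    if r.1 = m ∧ r.2 ≠ m then (((r.2 - m : ℤ) : (CW S).K))⁻¹ else 0 with hM₂
  set E : Module.End (CW S).K ((CW S).H X) := dia (isInternal S X) fun r =>
    if r.1 = m ∧ r.2 = m then 1 else 0 with hE
  have key : ∀ x, M₁ (lop S 1 0 X x - (m : (CW S).K) • x) +
      M₂ (lop S 0 1 X x - (m : (CW S).K) • x) + E x = x := by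
    intro x
    refine pq_ind S (p := fun x => M₁ (lop S 1 0 X x - (m : (CW S).K) • x) +
      M₂ (lop S 0 1 X x - (m : (CW S).K) • x) + E x = x) ?_ ?_ ?_ x
    · intro p q x hx
      rw [lop_pq hx, lop_pq hx, ← sub_smul, ← sub_smul, map_smul, map_smul, hM₁, hM₂, hE,
        dia_apply (isInternal S X) _ (i := (p, q)) hx,
        dia_apply (isInternal S X) _ (i := (p, q)) hx,
        dia_apply (isInternal S X) _ (i := (p, q)) hx, one_mul, zero_mul, add_zero, zero_mul,
        one_mul, zero_add]
      by_cases hp : p = m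
      · by_cases hq : q = m
        · simp [hp, hq]
        · have h3 : ((q - m : ℤ) : (CW S).K) ≠ 0 := by
            rw [Int.cast_ne_zero]
            exact sub_ne_zero.2 hq
          simp only [hp, hq, if_true, zero_smul, smul_zero, zero_add, and_false, if_false,
            add_zero, ne_eq, not_false_eq_true, and_self]
          rw [smul_smul, ← Int.cast_sub, mul_inv_cancel₀ h3, one_smul]
      · have h3 : ((p - m : ℤ) : (CW S).K) ≠ 0 := by
          rw [Int.cast_ne_zero]
          exact sub_ne_zero.2 hp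
        simp only [hp, if_false, false_and, zero_smul, smul_zero, add_zero]
        rw [smul_smul, ← Int.cast_sub, mul_inv_cancel₀ h3, one_smul]
    · intro a b ha hb
      calc M₁ (lop S 1 0 X (a + b) - (m : (CW S).K) • (a + b)) +
            M₂ (lop S 0 1 X (a + b) - (m : (CW S).K) • (a + b)) + E (a + b)
          = (M₁ (lop S 1 0 X a - (m : (CW S).K) • a) +
              M₂ (lop S 0 1 X a - (m : (CW S).K) • a) + E a) +
            (M₁ (lop S 1 0 X b - (m : (CW S).K) • b) +
              M₂ (lop S 0 1 X b - (m : (CW S).K) • b) + E b) := by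
            simp only [map_add, map_sub, smul_add]; abel
        _ = a + b := by rw [ha, hb]
    · simp
  have h3 := key x
  rw [h1, h2, sub_self, map_zero, map_zero, zero_add, zero_add] at h3
  rw [← h3]
  refine pq_ind S (p := fun x => E x ∈ S.pq X m m) ?_ ?_ ?_ x
  · intro p q x hx
    rw [hE, dia_apply (isInternal S X) _ (i := (p, q)) hx]
    by_cases hpq : p = m ∧ q = m
    · obtain ⟨rfl, rfl⟩ := hpq
      simpa using hx
    · simp [hpq]
  · intro x y hx hy; rw [map_add]; exact Submodule.add_mem _ hx hy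
  · rw [map_zero]; exact Submodule.zero_mem _

/-- The extension of the coefficients of a linear map. -/
noncomputable def bc (S : Pool.Agent.Y121.AH.HodgeTheory ops) {X Y : 𝒱.Obj}
    (f : S.W.H X →ₗ[S.W.K] S.W.H Y) : (CW S).H X →ₗ[(CW S).K] (CW S).H Y :=
  (f.baseChange ℂ : ℂ ⊗[S.W.K] S.W.H X →ₗ[ℂ] ℂ ⊗[S.W.K] S.W.H Y)

lemma bc_em (f : S.W.H X →ₗ[S.W.K] S.W.H Y) (a : S.W.H X) :
    bc S f (em S.W ℂ a) = em S.W ℂ (f a) := by
  have h : f.baseChange ℂ ((1 : ℂ) ⊗ₜ[S.W.K] a) = (1 : ℂ) ⊗ₜ[S.W.K] f a :=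
    LinearMap.baseChange_tmul _ _ _
  exact h

/-- Linear maps which agree on rational classes are equal. -/
lemma ext_em {V : Type*} [AddCommGroup V] [Module (CW S).K V]
    {F G : (CW S).H X →ₗ[(CW S).K] V} (h : ∀ a, F (em S.W ℂ a) = G (em S.W ℂ a)) : F = G := by
  apply LinearMap.ext
  intro x
  have key : ∀ x : ℂ ⊗[S.W.K] S.W.H X, F (show (CW S).H X from x) =
      G (show (CW S).H X from x) := by
    intro x
    induction x using TensorProduct.induction_on with
    | zero => exact (map_zero F).trans (map_zero G).symm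
    | add x y hx hy =>
      have h1 := (map_add F (show (CW S).H X from x) (show (CW S).H X from y)).trans
        ((congrArg₂ (· + ·) hx hy).trans
          (map_add G (show (CW S).H X from x) (show (CW S).H X from y)).symm)
      exact h1
    | tmul l a =>
      have h2 : (show (CW S).K from l) • em S.W ℂ a = (l ⊗ₜ[S.W.K] a : ℂ ⊗[S.W.K] S.W.H X) := by
        change l • ((1 : ℂ) ⊗ₜ[S.W.K] a) = _
        rw [TensorProduct.smul_tmul', smul_eq_mul, mul_one]
      rw [← h2]
      have h3 := map_smul F (show (CW S).K from l) (em S.W ℂ a)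
      have h4 := map_smul G (show (CW S).K from l) (em S.W ℂ a)
      exact h3.trans ((congrArg (fun y => (show (CW S).K from l) • y) (h a)).trans h4.symm)
  exact key x

lemma bc_corr (c : S.W.H (X.prod Y)) : bc S (S.W.corr c) = (CW S).corr (em S.W ℂ c) :=
  ext_em fun a => by rw [bc_em, em_corr]

/-- A linear map shifting the types is given by a Hodge class. -/
theorem exists_hodge {s : ℤ} {f : S.W.H X →ₗ[S.W.K] S.W.H Y}
    (hf : ∀ (p q : ℤ), ∀ x ∈ S.pq X p q, bc S f x ∈ S.pq Y (p + s) (q + s)) :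
    f = 0 ∨ ∃ (j : ℕ) (c : S.W.H (X.prod Y)), (j : ℤ) = X.dim + s ∧
      Pool.Agent.Y121.AH.IsHodge S (X.prod Y) j c ∧ S.W.corr c = f := by
  obtain ⟨c, hc⟩ := corr_surj S.W f
  have hfl : ∀ a b : ℤ, lop S a b Y ∘ₗ bc S f - bc S f ∘ₗ lop S a b X =
      (((a + b) * s : ℤ) : (CW S).K) • bc S f := by
    intro a b
    refine pq_ext S fun p q x hx => ?_
    rw [LinearMap.sub_apply, LinearMap.comp_apply, LinearMap.comp_apply, LinearMap.smul_apply,
      lop_pq hx, map_smul, lop_pq (hf p q x hx), ← sub_smul, ← Int.cast_sub]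
    congr 2
    ring
  have hl : ∀ a b : ℤ, a + b = 1 → lop S a b (X.prod Y) (em S.W ℂ c) =
      ((X.dim + s : ℤ) : (CW S).K) • em S.W ℂ c := by
    intro a b hab
    rw [← sub_eq_zero]
    apply corr_inj (W := CW S)
    have h1 := corr_lop (a := a) (b := b) (em S.W ℂ c)
    rw [← bc_corr, hc, hfl, ← add_smul, ← Int.cast_add, hab, one_mul, one_mul] at h1
    have h2 : (CW S).corr (lop S a b (X.prod Y) (em S.W ℂ c) -
        ((X.dim + s : ℤ) : (CW S).K) • em S.W ℂ c) =
        (CW S).corr (lop S a b (X.prod Y) (em S.W ℂ c)) -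
          ((X.dim + s : ℤ) : (CW S).K) • (CW S).corr (em S.W ℂ c) := by
      have h3 := (CW S).corr_add (lop S a b (X.prod Y) (em S.W ℂ c) -
        ((X.dim + s : ℤ) : (CW S).K) • em S.W ℂ c) (((X.dim + s : ℤ) : (CW S).K) • em S.W ℂ c)
      rw [sub_add_cancel, corr_smul] at h3
      rw [h3, add_sub_cancel_right]
    rw [h2, h1, ← bc_corr, hc, add_comm s, sub_self]
  have hpq := pq_of_lop (hl 1 0 rfl) (hl 0 1 rfl)
  by_cases hs : 0 ≤ (X.dim : ℤ) + s
  · right
    obtain ⟨j, hj⟩ := Int.eq_ofNat_of_zero_le hs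
    refine ⟨j, c, hj.symm, ⟨?_, ?_⟩, hc⟩
    · rw [hj] at hpq
      have h3 := S.dec.le (X.prod Y) (p := (j : ℤ)) (q := (j : ℤ)) (i := 2 * j)
        (by push_cast; ring) hpq
      exact mem_of_em_mem (L := ℂ) h3
    · rw [hj] at hpq
      exact hpq
  · left
    have h3 := pq_neg (by omega) hpq
    rw [← hc, em_injective h3, corr_zero]

/-- The operator of a Hodge class shifts the types. -/
theorem type_of_hodge {s : ℤ} {j : ℕ} {c : S.W.H (X.prod Y)} (hj : (j : ℤ) = X.dim + s)
    (hc : Pool.Agent.Y121.AH.IsHodge S (X.prod Y) j c) {p q : ℤ} {x : (CW S).H X}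
    (hx : x ∈ S.pq X p q) : bc S (S.W.corr c) x ∈ S.pq Y (p + s) (q + s) := by
  rw [bc_corr, corr_apply]
  have h1 := S.dec.push (snd X Y) (S.dec.mul hc.2 (S.dec.map (fst X Y) hx))
  rw [dim_prod] at h1
  have h2 : (j : ℤ) + p + Y.dim - ((X.dim + Y.dim : ℕ) : ℤ) = p + s := by
    rw [hj]; push_cast; ring
  have h3 : (j : ℤ) + q + Y.dim - ((X.dim + Y.dim : ℕ) : ℤ) = q + s := by
    rw [hj]; push_cast; ring
  rw [h2, h3] at h1
  exact h1

end Lop

end Pool.Agent.T2h63.AH
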