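import Pool.Agent.T2h63.AH.LA
import Pool.Agent.T2h63.AH.Der
import Pool.Agent.Y121.AH.Gop

/-!
# The natural families of operators generated by the conjugates of the Hodge operator
-/

open CategoryTheory AlgebraicGeometry TensorProduct

universe u

namespace Pool.Agent.T2h63.AH

open Module
open Pool.Agent.H914 Pool.Agent.H914.VarClass Pool.Agent.H914.VarClass.Obj
  Pool.Agent.H914.WeilCohomology
open Pool.Agent.Y121.AH (HodgeTheory CW em IsHodge dia dia_apply pq_ind pq_ext isInternal)

variable {k : Type u} [Field k] {𝒱 : VarClass k} {ops : CycleOps 𝒱} (T : HodgeTheory ops)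

section Sg

/-- The semilinear automorphism given by an automorphism of the complex numbers. -/
noncomputable def sg (τ : ℂ ≃ₐ[T.W.K] ℂ) (X : 𝒱.Obj) : (CW T).H X →+ (CW T).H X :=
  (sig τ : ℂ ⊗[T.W.K] T.W.H X →ₗ[T.W.K] ℂ ⊗[T.W.K] T.W.H X).toAddMonoidHom

/-- The automorphism of the coefficients. -/
def sc (τ : ℂ ≃ₐ[T.W.K] ℂ) (c : (CW T).K) : (CW T).K := τ c

variable {T} {X Y : 𝒱.Obj} (τ : ℂ ≃ₐ[T.W.K] ℂ)

lemma sg_smul (c : (CW T).K) (x : (CW T).H X) : sg T τ X (c • x) = sc T τ c • sg T τ X x :=
  sig_smul τ c x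

lemma sg_mul (x y : (CW T).H X) : sg T τ X (x * y) = sg T τ X x * sg T τ X y := sig_mul τ x y

lemma sg_map (f : X ⟶ Y) (y : (CW T).H Y) :
    sg T τ X ((CW T).map f y) = (CW T).map f (sg T τ Y y) := sig_map τ (T.W.map f) y

lemma sg_em (c : T.W.H X) : sg T τ X (em T.W ℂ c) = em T.W ℂ c := by
  have h : sig τ ((1 : ℂ) ⊗ₜ[T.W.K] c) = (1 : ℂ) ⊗ₜ[T.W.K] c := by rw [sig_tmul, map_one]
  exact h

lemma sg_symm (x : (CW T).H X) : sg T τ X (sg T τ.symm X x) = x := sig_symm τ x

lemma sg_symm' (x : (CW T).H X) : sg T τ.symm X (sg T τ X x) = x := sig_symm' τ x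

/-- Operators which agree on the image of the semilinear automorphism are equal. -/
lemma eq_of_sg {A B : Module.End (CW T).K ((CW T).H X)}
    (h : ∀ y, A (sg T τ X y) = B (sg T τ X y)) : A = B := by
  apply LinearMap.ext
  intro x
  have h1 := h (sg T τ.symm X x)
  rwa [sg_symm] at h1

lemma sc_symm (c : (CW T).K) : sc T τ (sc T τ.symm c) = c := τ.apply_symm_apply c

lemma sc_int (m : ℤ) : sc T τ (m : (CW T).K) = (m : (CW T).K) := map_intCast τ m

lemma sg_gr {i : ℕ} {x : (CW T).H X} (hx : x ∈ (CW T).gr X i) :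
    sg T τ X x ∈ (CW T).gr X i := sig_gr τ hx

lemma sg_trans (τ' : ℂ ≃ₐ[T.W.K] ℂ) (x : (CW T).H X) :
    sg T τ X (sg T τ' X x) = sg T (τ'.trans τ) X x := by
  have h : ∀ y : ℂ ⊗[T.W.K] T.W.H X, sig τ (sig τ' y) = sig (τ'.trans τ) y := by
    intro y
    induction y using TensorProduct.induction_on with
    | zero => rw [map_zero, map_zero, map_zero]
    | add x y hx hy => rw [map_add, map_add, hx, hy, map_add]
    | tmul l b => rw [sig_tmul, sig_tmul, sig_tmul]; rfl
  exact h x

/-- The conjugate of an operator. -/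
noncomputable def cop (A : Module.End (CW T).K ((CW T).H X)) :
    Module.End (CW T).K ((CW T).H X) where
  toFun x := sg T τ X (A (sg T τ.symm X x))
  map_add' x y := by rw [map_add, map_add, map_add]
  map_smul' c x := by
    rw [sg_smul, map_smul, sg_smul, sc_symm]
    rfl

lemma cop_apply (A : Module.End (CW T).K ((CW T).H X)) (x : (CW T).H X) :
    cop τ A x = sg T τ X (A (sg T τ.symm X x)) := rfl

lemma cop_sg (A : Module.End (CW T).K ((CW T).H X)) (x : (CW T).H X) :
    cop τ A (sg T τ X x) = sg T τ X (A x) := by rw [cop_apply, sg_symm']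

lemma cop_add (A B : Module.End (CW T).K ((CW T).H X)) :
    cop τ (A + B) = cop τ A + cop τ B := by
  apply LinearMap.ext
  intro x
  rw [LinearMap.add_apply, cop_apply, cop_apply, cop_apply, LinearMap.add_apply, map_add]

lemma cop_smul (c : (CW T).K) (A : Module.End (CW T).K ((CW T).H X)) :
    cop τ (c • A) = sc T τ c • cop τ A := by
  apply LinearMap.ext
  intro x
  rw [LinearMap.smul_apply, cop_apply, cop_apply, LinearMap.smul_apply, sg_smul]

lemma cop_mul (A B : Module.End (CW T).K ((CW T).H X)) :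
    cop τ (A * B) = cop τ A * cop τ B := by
  apply LinearMap.ext
  intro x
  rw [Module.End.mul_apply, cop_apply, cop_apply, cop_apply, Module.End.mul_apply, sg_symm']

lemma cop_sub (A B : Module.End (CW T).K ((CW T).H X)) :
    cop τ (A - B) = cop τ A - cop τ B := by
  apply LinearMap.ext
  intro x
  rw [LinearMap.sub_apply, cop_apply, cop_apply, cop_apply, LinearMap.sub_apply, map_sub]

lemma cop_zero : cop τ (0 : Module.End (CW T).K ((CW T).H X)) = 0 := by
  apply LinearMap.ext
  intro x
  rw [cop_apply, LinearMap.zero_apply, LinearMap.zero_apply, map_zero]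

end Sg

section Nop

/-- The operator which multiplies the classes of type `(p, q)` by `p - q`. -/
noncomputable def nop (X : 𝒱.Obj) : Module.End (CW T).K ((CW T).H X) :=
  dia (isInternal T X) fun r => ((r.1 - r.2 : ℤ) : (CW T).K)

variable {T} {X Y : 𝒱.Obj}

lemma nop_pq {p q : ℤ} {x : (CW T).H X} (hx : x ∈ T.pq X p q) :
    nop T X x = ((p - q : ℤ) : (CW T).K) • x :=
  dia_apply (isInternal T X) _ (i := (p, q)) hx

lemma nop_isDer : IsDer (V := CW T) (nop T) where
  mul X x y := by
    refine pq_ind T (p := fun x => nop T X (x * y) = nop T X x * y + x * nop T X y) ?_ ?_ ?_ x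
    · intro a b x hx
      refine pq_ind T (p := fun y => nop T X (x * y) = nop T X x * y + x * nop T X y)
        ?_ ?_ ?_ y
      · intro c d y hy
        rw [nop_pq hx, nop_pq hy, nop_pq (T.dec.mul hx hy), smul_mul_assoc, mul_smul_comm,
          ← add_smul, ← Int.cast_add]
        congr 2
        ring
      · intro y z hy hz
        rw [mul_add, map_add, hy, hz, map_add, mul_add, mul_add]
        abel
      · simp
    · intro x z hx hz
      rw [add_mul, map_add, hx, hz, map_add, add_mul, add_mul]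
      abel
    · simp
  map {X Y} f y := by
    refine pq_ind T (p := fun y => nop T X ((CW T).map f y) = (CW T).map f (nop T Y y))
      ?_ ?_ ?_ y
    · intro a b y hy
      rw [nop_pq hy, nop_pq (T.dec.map f hy), map_smul]
    · intro y z hy hz; rw [map_add, map_add, hy, hz, map_add, map_add]
    · rw [map_zero, map_zero, map_zero, map_zero]

lemma nop_hodge {j : ℕ} {c : T.W.H X} (hc : IsHodge T X j c) : nop T X (em T.W ℂ c) = 0 := by
  rw [nop_pq hc.2, sub_self, Int.cast_zero, zero_smul]

/-- The homogeneous parts. -/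
lemma gr_eq (X : 𝒱.Obj) (i : ℕ) : (CW T).gr X i =
    ⨆ r : {r : ℤ × ℤ // r.1 + r.2 = i}, T.pq X r.1.1 r.1.2 := by
  apply le_antisymm
  · intro x hx
    refine base_induction (K := T.W.K) (L := ℂ) (p := T.W.gr X i)
      (P := fun x => (show (CW T).H X from x) ∈
        (⨆ r : {r : ℤ × ℤ // r.1 + r.2 = i}, T.pq X r.1.1 r.1.2 :
          Submodule (CW T).K ((CW T).H X))) (Submodule.zero_mem _)
      (fun _ _ => Submodule.add_mem _) ?_ hx
    intro l a ha
    have h1 := Submodule.smul_mem _ (show (CW T).K from l) (T.dec.span ha)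
    have h2 : (show (CW T).K from l) • em T.W ℂ a = (l ⊗ₜ[T.W.K] a : ℂ ⊗[T.W.K] T.W.H X) := by
      change l • ((1 : ℂ) ⊗ₜ[T.W.K] a) = _
      rw [TensorProduct.smul_tmul', smul_eq_mul, mul_one]
    rw [h2] at h1
    exact h1
  · exact iSup_le fun r => T.dec.le X r.2

lemma nop_gr {i : ℕ} {x : (CW T).H X} (hx : x ∈ (CW T).gr X i) :
    nop T X x ∈ (CW T).gr X i := by
  have h0 := hx
  rw [gr_eq] at h0
  refine Submodule.iSup_induction (fun r : {r : ℤ × ℤ // r.1 + r.2 = i} => T.pq X r.1.1 r.1.2)
    (motive := fun x => nop T X x ∈ (CW T).gr X i) h0 ?_ ?_ ?_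
  · intro r x hx
    rw [nop_pq hx]
    exact Submodule.smul_mem _ _ (T.dec.le X r.2 hx)
  · rw [map_zero]; exact Submodule.zero_mem _
  · intro x y hx hy; rw [map_add]; exact Submodule.add_mem _ hx hy

/-- A homogeneous eigenvector of the operator has a type. -/
lemma pq_of_eigen {i : ℕ} {m : ℤ} {x : (CW T).H X} (hx : x ∈ (CW T).gr X i)
    (h : nop T X x = (m : (CW T).K) • x) {p q : ℤ} (hi : p + q = i) (hm : p - q = m) :
    x ∈ T.pq X p q := by
  classical
  set N : Module.End (CW T).K ((CW T).H X) := dia (isInternal T X) fun r =>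
    if r.1 - r.2 = m then 0 else (((r.1 - r.2 - m : ℤ) : (CW T).K))⁻¹ with hN
  set E : Module.End (CW T).K ((CW T).H X) := dia (isInternal T X) fun r =>
    if r.1 - r.2 = m then 1 else 0 with hE
  have h1 : ∀ x, N (nop T X x - (m : (CW T).K) • x) + E x = x := by
    intro x
    refine pq_ind T (p := fun x => N (nop T X x - (m : (CW T).K) • x) + E x = x) ?_ ?_ ?_ x
    · intro a b x hx
      rw [nop_pq hx, ← sub_smul, map_smul, hN, hE, dia_apply (isInternal T X) _ (i := (a, b)) hx,
        dia_apply (isInternal T X) _ (i := (a, b)) hx]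
      by_cases hab : a - b = m
      · simp [hab]
      · simp only [if_neg hab, zero_smul, add_zero]
        have h2 : ((a - b - m : ℤ) : (CW T).K) ≠ 0 := by
          rw [Int.cast_ne_zero]
          exact sub_ne_zero.2 hab
        rw [smul_smul, ← Int.cast_sub, mul_inv_cancel₀ h2, one_smul]
    · intro a b ha hb
      calc N (nop T X (a + b) - (m : (CW T).K) • (a + b)) + E (a + b)
          = (N (nop T X a - (m : (CW T).K) • a) + E a) +
            (N (nop T X b - (m : (CW T).K) • b) + E b) := by
            simp only [map_add, map_sub, smul_add]; abel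
        _ = a + b := by rw [ha, hb]
    · simp
  have h2 := h1 x
  rw [h, sub_self, map_zero, zero_add] at h2
  rw [← h2]
  rw [gr_eq] at hx
  refine Submodule.iSup_induction
    (fun r : {r : ℤ × ℤ // r.1 + r.2 = i} => T.pq X r.1.1 r.1.2)
    (motive := fun x => E x ∈ T.pq X p q) hx ?_ ?_ ?_
  · rintro ⟨⟨a, b⟩, hr⟩ x hx
    rw [hE, dia_apply (isInternal T X) _ (i := (a, b)) hx]
    by_cases hab : a - b = m
    · have h4 : a + b = i := hr
      obtain rfl : a = p := by omega
      obtain rfl : b = q := by omega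
      simpa [hab] using hx
    · simp [hab]
  · rw [map_zero]; exact Submodule.zero_mem _
  · intro x y hx hy; rw [map_add]; exact Submodule.add_mem _ hx hy

/-- There are no homogeneous eigenvectors of the wrong parity. -/
lemma eq_zero_of_parity {i : ℕ} {x : (CW T).H X} (hx : x ∈ (CW T).gr X i) (hi : i % 2 = 1)
    (h : nop T X x = 0) : x = 0 := by
  classical
  set N : Module.End (CW T).K ((CW T).H X) := dia (isInternal T X) fun r =>
    if r.1 - r.2 = 0 then 0 else (((r.1 - r.2 : ℤ) : (CW T).K))⁻¹ with hN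
  have h1 : ∀ x ∈ (CW T).gr X i, N (nop T X x) = x := by
    intro x hx
    rw [gr_eq] at hx
    refine Submodule.iSup_induction
      (fun r : {r : ℤ × ℤ // r.1 + r.2 = i} => T.pq X r.1.1 r.1.2)
      (motive := fun x => N (nop T X x) = x) hx ?_ ?_ ?_
    · rintro ⟨⟨a, b⟩, hr⟩ x hx
      have h4 : a + b = i := hr
      have hab : ¬ (a - b = 0) := by omega
      rw [nop_pq hx, map_smul, hN, dia_apply (isInternal T X) _ (i := (a, b)) hx]
      simp only [if_neg hab]
      have h2 : ((a - b : ℤ) : (CW T).K) ≠ 0 := by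
        rw [Int.cast_ne_zero]
        exact hab
      rw [smul_smul, mul_inv_cancel₀ h2, one_smul]
    · simp
    · intro x y hx hy; rw [map_add, map_add, hx, hy]
  rw [← h1 x hx, h, map_zero]

/-- A rational class of degree `2 j` killed by the operator is a Hodge class. -/
lemma isHodge_of_nop {j : ℕ} {c : T.W.H X} (hc : c ∈ T.W.gr X (2 * j))
    (h : nop T X (em T.W ℂ c) = 0) : IsHodge T X j c :=
  ⟨hc, pq_of_eigen (m := 0) (Pool.Agent.Y121.AH.em_gr hc)
    (by rw [h, Int.cast_zero, zero_smul]) (by push_cast; ring) (sub_self _)⟩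

end Nop

section Conj

variable {T} (τ : ℂ ≃ₐ[T.W.K] ℂ)

/-- The conjugates of the operator. -/
noncomputable def nopc (X : 𝒱.Obj) : Module.End (CW T).K ((CW T).H X) where
  toFun x := sg T τ X (nop T X (sg T τ.symm X x))
  map_add' x y := by rw [map_add, map_add, map_add]
  map_smul' c x := by
    rw [sg_smul, map_smul, sg_smul, sc_symm]
    rfl

variable {X Y : 𝒱.Obj}

lemma nopc_apply (x : (CW T).H X) :
    nopc τ X x = sg T τ X (nop T X (sg T τ.symm X x)) := rfl

lemma nopc_sg {p q : ℤ} {x : (CW T).H X} (hx : x ∈ T.pq X p q) :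
    nopc τ X (sg T τ X x) = ((p - q : ℤ) : (CW T).K) • sg T τ X x := by
  rw [nopc_apply, sg_symm', nop_pq hx, sg_smul, sc_int]

lemma nopc_isDer : IsDer (V := CW T) (fun X => nopc τ X) where
  mul X x y := by
    simp only [nopc_apply, sg_mul, nop_isDer.mul, map_add, sg_symm]
  map f y := by
    simp only [nopc_apply, sg_map, nop_isDer.map]

lemma nopc_hodge {j : ℕ} {c : T.W.H X} (hc : IsHodge T X j c) :
    nopc τ X (em T.W ℂ c) = 0 := by
  rw [nopc_apply, sg_em, nop_hodge hc, map_zero]

lemma nopc_gr {i : ℕ} {x : (CW T).H X} (hx : x ∈ (CW T).gr X i) :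
    nopc τ X x ∈ (CW T).gr X i := sg_gr τ (nop_gr (sg_gr τ.symm hx))

lemma nopc_refl : nopc (T := T) (AlgEquiv.refl) X = nop T X := by
  apply LinearMap.ext
  intro x
  have h1 : ∀ y : (CW T).H X, sg T AlgEquiv.refl X y = y := by
    intro y
    have h2 : ∀ y : ℂ ⊗[T.W.K] T.W.H X, sig (AlgEquiv.refl : ℂ ≃ₐ[T.W.K] ℂ) y = y := by
      intro y
      induction y using TensorProduct.induction_on with
      | zero => rw [map_zero]
      | add x y hx hy => rw [map_add, hx, hy]
      | tmul l b => rw [sig_tmul]; rfl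
    exact h2 y
  rw [nopc_apply, h1]
  congr 1
  exact h1 x

end Conj

/-- The Lie algebra of natural families generated by the conjugates of the Hodge operator. -/
inductive FamLie : Fam (CW T) → Prop
  | gen (τ : ℂ ≃ₐ[T.W.K] ℂ) : FamLie (fun X => nopc τ X)
  | add {F G : Fam (CW T)} : FamLie F → FamLie G → FamLie (fun X => F X + G X)
  | smul (c : (CW T).K) {F : Fam (CW T)} : FamLie F → FamLie (fun X => c • F X)
  | bra {F G : Fam (CW T)} : FamLie F → FamLie G → FamLie (fun X => F X * G X - G X * F X)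

variable {T} {F G : Fam (CW T)} {X : 𝒱.Obj}

lemma FamLie.isDer (hF : FamLie T F) : IsDer F := by
  induction hF with
  | gen τ => exact nopc_isDer τ
  | add _ _ h h' => exact h.add h'
  | smul c _ h => exact h.smul c
  | bra _ _ h h' => exact h.bra h'

lemma FamLie.hodge (hF : FamLie T F) {j : ℕ} {c : T.W.H X} (hc : IsHodge T X j c) :
    F X (em T.W ℂ c) = 0 := by
  induction hF with
  | gen τ => exact nopc_hodge τ hc
  | add _ _ h h' => rw [LinearMap.add_apply, h, h', add_zero]
  | smul c _ h => rw [LinearMap.smul_apply, h, smul_zero]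
  | bra _ _ h h' =>
    rw [LinearMap.sub_apply, Module.End.mul_apply, Module.End.mul_apply, h, h', map_zero,
      map_zero, sub_zero]

lemma FamLie.gr (hF : FamLie T F) : ∀ {i : ℕ} {x : (CW T).H X}, x ∈ (CW T).gr X i →
    F X x ∈ (CW T).gr X i := by
  induction hF with
  | gen τ => intro i x hx; exact nopc_gr τ hx
  | add _ _ h h' => intro i x hx; exact Submodule.add_mem _ (h hx) (h' hx)
  | smul c _ h => intro i x hx; exact Submodule.smul_mem _ c (h hx)
  | bra _ _ h h' =>
    intro i x hx
    exact Submodule.sub_mem _ (h (h' hx)) (h' (h hx))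

lemma FamLie.nop : FamLie T (fun X => nop T X) := by
  have h : (fun X => AH.nop T X) = fun X => nopc (T := T) (AlgEquiv.refl) X := by
    funext X
    exact nopc_refl.symm
  rw [h]
  exact FamLie.gen _

/-- The conjugates of the families. -/
lemma FamLie.conj (τ : ℂ ≃ₐ[T.W.K] ℂ) (hF : FamLie T F) :
    FamLie T (fun X => cop τ (F X)) := by
  induction hF with
  | gen τ' =>
    have h : (fun X => cop τ (nopc τ' X)) = fun X => nopc (T := T) (τ'.trans τ) X := by
      funext X
      apply LinearMap.ext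
      intro x
      rw [cop_apply, nopc_apply, nopc_apply, sg_trans, sg_trans]
      rfl
    rw [h]
    exact FamLie.gen _
  | add _ _ h h' =>
    simp only [cop_add]
    exact FamLie.add h h'
  | smul c _ h =>
    simp only [cop_smul]
    exact FamLie.smul _ h
  | bra _ _ h h' =>
    simp only [cop_sub, cop_mul]
    exact FamLie.bra h h'

lemma FamLie.exists_conj (τ : ℂ ≃ₐ[T.W.K] ℂ) (hF : FamLie T F)
    {A B : Module.End (CW T).K ((CW T).H X)} (h : F X = A)
    (hAB : ∀ y, B (sg T τ X y) = sg T τ X (A y)) :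
    ∃ G, FamLie T G ∧ G X = B ∧ ∀ Z, F Z = 0 → G Z = 0 := by
  refine ⟨_, hF.conj τ, ?_, fun Z hZ => by rw [hZ, cop_zero]⟩
  refine eq_of_sg τ fun y => ?_
  rw [cop_sg, h, hAB]

open Polynomial in
/-- Polynomials in the commutator with the Hodge operator. -/
lemma FamLie.adP (P : (CW T).K[X]) : ∀ {F : Fam (CW T)}, FamLie T F →
    FamLie T (fun Y => AH.adP (AH.nop T Y) P (F Y)) := by
  induction P using Polynomial.induction_on' with
  | add p q hp hq =>
    intro F hF
    simp only [adP_add]
    exact FamLie.add (hp hF) (hq hF)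
  | monomial n a =>
    induction n with
    | zero =>
      intro F hF
      simp only [monomial_zero_left, adP_C]
      exact FamLie.smul a hF
    | succ n ih =>
      intro F hF
      simp only [← monomial_mul_X, adP_mul, adP_X]
      exact ih (FamLie.bra FamLie.nop hF)

end Pool.Agent.T2h63.AH
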