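import Mathlib

/-!
# Polynomials in the commutator with an operator
-/

namespace Pool.Agent.T2h63.AH

open Polynomial

variable {L V : Type*} [Field L] [AddCommGroup V] [Module L V]

/-- The commutator with `N`. -/
noncomputable def ad (N : Module.End L V) : Module.End L (Module.End L V) :=
  LinearMap.mulLeft L N - LinearMap.mulRight L N

lemma ad_apply (N A : Module.End L V) : ad N A = N * A - A * N := rfl

/-- The value of a polynomial in `ad N`. -/
noncomputable def adP (N : Module.End L V) (P : L[X]) (A : Module.End L V) : Module.End L V :=
  aeval (ad N) P A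

lemma adP_C (N A : Module.End L V) (a : L) : adP N (C a) A = a • A := by
  rw [adP, aeval_C]
  rfl

lemma adP_add (N A : Module.End L V) (P Q : L[X]) : adP N (P + Q) A = adP N P A + adP N Q A := by
  rw [adP, map_add]
  rfl

lemma adP_mul (N A : Module.End L V) (P Q : L[X]) : adP N (P * Q) A = adP N P (adP N Q A) := by
  rw [adP, map_mul]
  rfl

lemma adP_X (N A : Module.End L V) : adP N X A = N * A - A * N := by
  rw [adP, aeval_X]
  rfl

lemma adP_one (N A : Module.End L V) : adP N 1 A = A := by
  rw [adP, map_one]
  rfl

lemma adP_zero_right (N : Module.End L V) (P : L[X]) : adP N P 0 = 0 := map_zero _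

lemma adP_lin (N A : Module.End L V) (a : L) :
    adP N (X - C a) A = N * A - A * N - a • A := by
  rw [adP, map_sub, aeval_X, aeval_C]
  rfl

/-- A set of operators stable under sums, multiples and the commutator with `N` is stable under
polynomials in it. -/
lemma adP_mem {N : Module.End L V} {S : Module.End L V → Prop}
    (hadd : ∀ A B, S A → S B → S (A + B)) (hsmul : ∀ (a : L) A, S A → S (a • A))
    (had : ∀ A, S A → S (N * A - A * N)) (P : L[X]) : ∀ A, S A → S (adP N P A) := by
  induction P using Polynomial.induction_on' with
  | add p q hp hq => intro A hA; rw [adP_add]; exact hadd _ _ (hp A hA) (hq A hA)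
  | monomial n a =>
    induction n with
    | zero => intro A hA; rw [monomial_zero_left, adP_C]; exact hsmul a A hA
    | succ n ih =>
      intro A hA
      rw [← monomial_mul_X, adP_mul, adP_X]
      exact ih _ (had A hA)

lemma adP_eigen {N A : Module.End L V} {c : L} (h : N * A - A * N = c • A) (P : L[X]) :
    adP N P A = P.eval c • A := by
  induction P using Polynomial.induction_on' with
  | add p q hp hq => rw [adP_add, hp, hq, eval_add, add_smul]
  | monomial n a =>
    induction n with
    | zero => rw [monomial_zero_left, adP_C, eval_C]
    | succ n ih =>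
      rw [← monomial_mul_X, adP_mul, adP_X, h]
      have h1 : adP N (monomial n a) (c • A) = c • adP N (monomial n a) A := by
        rw [adP, map_smul]; rfl
      rw [h1, ih, smul_smul, eval_mul, eval_X, mul_comm]

lemma aeval_eigen {M : Module.End L V} {c : L} {x : V} (h : M x = c • x) (P : L[X]) :
    aeval M P x = P.eval c • x := by
  induction P using Polynomial.induction_on' with
  | add p q hp hq => rw [map_add, LinearMap.add_apply, hp, hq, eval_add, add_smul]
  | monomial n a =>
    induction n with
    | zero => rw [monomial_zero_left, aeval_C, eval_C]; rfl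
    | succ n ih =>
      rw [← monomial_mul_X, map_mul, aeval_X, Module.End.mul_apply, h, map_smul, ih, smul_smul,
        eval_mul, eval_X, mul_comm]

lemma adP_apply {N : Module.End L V} {c : L} {x : V} (h : N x = c • x) (P : L[X]) :
    ∀ A : Module.End L V, adP N P A x = aeval (N - c • (1 : Module.End L V)) P (A x) := by
  induction P using Polynomial.induction_on' with
  | add p q hp hq => intro A; rw [adP_add, LinearMap.add_apply, hp, hq, map_add,
      LinearMap.add_apply]
  | monomial n a =>
    induction n with
    | zero => intro A; rw [monomial_zero_left, adP_C, aeval_C]; rfl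
    | succ n ih =>
      intro A
      rw [← monomial_mul_X, adP_mul, adP_X, ih, map_mul, aeval_X, Module.End.mul_apply]
      congr 1
      simp only [LinearMap.sub_apply, Module.End.mul_apply, h, map_smul, LinearMap.smul_apply,
        Module.End.one_apply]

/-- The value at `A x`, where `N x = c x`, if `A x` is a sum of eigenvectors of `N`. -/
lemma adP_apply_eigen {N : Module.End L V} (c : L) (P : L[X]) {y : V} {d : L}
    (hy : N y = d • y) :
    aeval (N - c • (1 : Module.End L V)) P y = P.eval (d - c) • y :=
  aeval_eigen (by rw [LinearMap.sub_apply, LinearMap.smul_apply, Module.End.one_apply, hy,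
    sub_smul]) P

/-- The trace of an eigenvector of `ad N` with nonzero eigenvalue vanishes. -/
lemma trace_eigen [Module.Finite L V] {N A : Module.End L V} {c : L} (hc : c ≠ 0)
    (h : N * A - A * N = c • A) : LinearMap.trace L V A = 0 := by
  have h1 := congrArg (LinearMap.trace L V) h
  rw [map_sub, LinearMap.trace_mul_comm, sub_self, map_smul, smul_eq_mul] at h1
  rcases mul_eq_zero.1 h1.symm with h2 | h2
  · exact absurd h2 hc
  · exact h2

end Pool.Agent.T2h63.AH
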