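import Pool.Agent.T2h63.AH.Lift

/-!
# Separation of the levels
-/

open CategoryTheory AlgebraicGeometry TensorProduct

universe u

namespace Pool.Agent.T2h63.AH

open Module Polynomial
open Pool.Agent.H914 Pool.Agent.H914.VarClass Pool.Agent.H914.VarClass.Obj
  Pool.Agent.H914.WeilCohomology
open Pool.Agent.Y121.AHS (HL IsType toH)
open Pool.Agent.Y121.AH (CW em pq_ind pq_ext)

variable {k : Type u} [Field k] {𝒱 : VarClass k} {ops : CycleOps 𝒱}

/-- The types which occur are bounded. -/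
lemma exists_bound (S : Pool.Agent.Y121.AH.HodgeTheory ops) (X : 𝒱.Obj) :
    ∃ M : ℕ, ∀ (p q : ℤ) (x : (CW S).H X), x ∈ S.pq X p q → x ≠ 0 → |p| ≤ M := by
  have h1 : Set.Finite {r : ℤ × ℤ | S.pq X r.1 r.2 ≠ ⊥} :=
    WellFoundedGT.finite_ne_bot_of_iSupIndep (S.dec.indep X)
  obtain ⟨M, hM⟩ := (h1.image fun r : ℤ × ℤ => |r.1|.toNat).bddAbove
  refine ⟨M, fun p q x hx hx0 => ?_⟩
  have h2 : S.pq X p q ≠ ⊥ := by
    intro h3
    rw [h3, Submodule.mem_bot] at hx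
    exact hx0 hx
  have h3 : |p|.toNat ≤ M := hM ⟨(p, q), h2, rfl⟩
  omega

/-- The polynomial with the zeros `2 j`, `j ∈ S`. -/
noncomputable def zp (L : Type*) [Field L] (S : Finset ℤ) : L[X] :=
  ∏ j ∈ S, (X - C ((2 * j : ℤ) : L))

lemma zp_eval {L : Type*} [Field L] {S : Finset ℤ} {j : ℤ} (hj : j ∈ S) :
    (zp L S).eval ((2 * j : ℤ) : L) = 0 := by
  rw [zp, eval_prod]
  refine Finset.prod_eq_zero hj ?_
  rw [eval_sub, eval_X, eval_C, sub_self]

lemma zp_eval_ne {L : Type*} [Field L] [CharZero L] {S : Finset ℤ} {j : ℤ} (hj : j ∉ S) :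
    (zp L S).eval ((2 * j : ℤ) : L) ≠ 0 := by
  rw [zp, eval_prod, Finset.prod_ne_zero_iff]
  intro i hi
  rw [eval_sub, eval_X, eval_C, ← Int.cast_sub, Int.cast_ne_zero]
  intro h
  have h1 : i = j := by omega
  exact hj (h1 ▸ hi)

variable {T : Pool.Agent.Y121.AHS.HodgeTheory ops} {X Z : 𝒱.Obj}

/-- A polynomial with sufficiently many zeros annihilates the Hodge Lie algebra. -/
lemma exists_zp (w : ℕ) {F : Fam (CW (toH T))} (hF : FamLie (toH T) F) (Z : 𝒱.Obj) :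
    ∃ M : ℕ, w ≤ M ∧ adP (nop (toH T) Z) (zp (CW (toH T)).K (Finset.Icc (-M : ℤ) M)) (F Z) = 0 := by
  obtain ⟨M, hM⟩ := exists_bound (toH T) Z
  refine ⟨2 * M + w, by omega, ?_⟩
  set P := zp (CW (toH T)).K (Finset.Icc (-(2 * M + w : ℕ) : ℤ) (2 * M + w : ℕ)) with hP
  refine pq_ext (toH T) ?_
  intro p q x hx
  rw [LinearMap.zero_apply]
  by_cases hx0 : x = 0
  · rw [hx0, map_zero]
  by_cases hpq : p + q < 0
  · exact absurd (pq_neg hpq hx) hx0
  obtain ⟨i, hi⟩ := Int.eq_ofNat_of_zero_le (not_lt.1 hpq)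
  have hp := hM p q x hx hx0
  rw [adP_apply (nop_pq hx)]
  have h1 : F Z x ∈ (CW (toH T)).gr Z i := hF.gr ((toH T).dec.le Z hi hx)
  rw [gr_eq] at h1
  refine Submodule.iSup_induction
    (fun r : {r : ℤ × ℤ // r.1 + r.2 = i} => (toH T).pq Z r.1.1 r.1.2)
    (motive := fun y => aeval (nop (toH T) Z - ((p - q : ℤ) : (CW (toH T)).K) • 1) P y = 0)
    h1 ?_ (map_zero _) ?_
  · rintro ⟨⟨r, s⟩, hr⟩ y hy
    by_cases hy0 : y = 0
    · rw [hy0, map_zero]
    · have hr' := hM r s y hy hy0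
      have hrs : r + s = i := hr
      rw [adP_apply_eigen _ P (nop_pq hy), ← Int.cast_sub]
      have h2 : r - s - (p - q) = 2 * (r - p) := by omega
      have h3 : r - p ∈ Finset.Icc (-(2 * M + w : ℕ) : ℤ) (2 * M + w : ℕ) := by
        rw [Finset.mem_Icc]
        rw [abs_le] at hp hr'
        push_cast
        omega
      rw [h2, hP, zp_eval h3, zero_smul]
  · intro a b ha hb; rw [map_add, ha, hb, add_zero]

/-- An operator of the Hodge Lie algebra annihilated by a product of factors for types beyond the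
level vanishes. -/
lemma eq_zero_of_zp {w : ℕ} (hZ : LevelLE T Z w) {F : Fam (CW (toH T))} (hF : FamLie (toH T) F)
    (S : Finset ℤ) (hS : ∀ j ∈ S, (w : ℤ) < |j|)
    (h : adP (nop (toH T) Z) (zp (CW (toH T)).K S) (F Z) = 0) : F Z = 0 := by
  induction S using Finset.induction_on with
  | empty =>
    rw [zp, Finset.prod_empty, adP_one] at h
    exact h
  | insert j S hj ih =>
    refine ih (fun i hi => hS i (Finset.mem_insert_of_mem hi)) ?_
    rw [zp, Finset.prod_insert hj, ← zp, adP_mul, adP_lin, sub_eq_zero] at h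
    exact eq_zero_of_ofC (hZ (ofC (adP (nop (toH T) Z) (zp (CW (toH T)).K S) (F Z)))
      ⟨hodgeLie_of_fam (hF.adP (zp _ S)), j, hS j (Finset.mem_insert_self j S),
      type_of_eigen (hF.adP (zp _ S)) h⟩)

lemma level_vanish {w : ℕ} (hZ : LevelLE T Z w) {F : Fam (CW (toH T))}
    (hF : FamLie (toH T) F) :
    adP (nop (toH T) Z) (zp (CW (toH T)).K (Finset.Icc (-w : ℤ) w)) (F Z) = 0 := by
  obtain ⟨M, hwM, hM⟩ := exists_zp w hF Z
  have hsub : Finset.Icc (-w : ℤ) w ⊆ Finset.Icc (-M : ℤ) M := by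
    apply Finset.Icc_subset_Icc
    · omega
    · omega
  rw [zp, ← Finset.prod_sdiff hsub, ← zp, ← zp, adP_mul] at hM
  refine eq_zero_of_zp hZ (hF.adP (zp _ (Finset.Icc (-w : ℤ) w))) _ ?_ hM
  intro j hj
  rw [Finset.mem_sdiff, Finset.mem_Icc, Finset.mem_Icc] at hj
  rcases le_or_gt |j| w with h | h
  · exact absurd (abs_le.1 h) hj.2
  · exact h

/-- **Separation of the levels.** -/
lemma exists_sep {w : ℕ} {A : Oper T X} (h : HighIdeal (T.pq X) w A) :
    ∃ F, FamLie (toH T) F ∧ F X = toC A ∧ ∀ Z, LevelLE T Z w → F Z = 0 := by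
  induction h with
  | @mem A hA =>
    obtain ⟨hA, j, hj, hA'⟩ := hA
    obtain ⟨F, hF, h1⟩ := exists_fam hA
    set P := zp (CW (toH T)).K (Finset.Icc (-w : ℤ) w) with hP
    have h2 : P.eval ((2 * j : ℤ) : (CW (toH T)).K) ≠ 0 := by
      apply zp_eval_ne
      rw [Finset.mem_Icc, ← abs_le]
      omega
    refine ⟨_, FamLie.smul (P.eval ((2 * j : ℤ) : (CW (toH T)).K))⁻¹ (hF.adP P), ?_, ?_⟩
    · have h3 := adP_eigen (eigen_of_type hA') P
      rw [h1, h3, smul_smul, inv_mul_cancel₀ h2, one_smul]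
    · intro Z hZ
      rw [level_vanish hZ hF, smul_zero]
  | conj τ hAB _ h =>
    obtain ⟨F, hF, h1, h2⟩ := h
    obtain ⟨G, hG, h3, h4⟩ := hF.exists_conj (toG τ) h1 fun y => congrArg toX (hAB (ofX y))
    exact ⟨G, hG, h3, fun Z hZ => h4 Z (h2 Z hZ)⟩
  | add _ _ h h' =>
    obtain ⟨F, hF, h1, h2⟩ := h
    obtain ⟨G, hG, h3, h4⟩ := h'
    exact ⟨_, FamLie.add hF hG, by rw [toC_add, ← h1, ← h3], fun Z hZ => by
      rw [h2 Z hZ, h4 Z hZ, add_zero]⟩
  | smul z _ h =>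
    obtain ⟨F, hF, h1, h2⟩ := h
    exact ⟨_, FamLie.smul (toK z) hF, by rw [toC_smul, ← h1],
      fun Z hZ => by rw [h2 Z hZ, smul_zero]⟩
  | bracket hA _ h' =>
    obtain ⟨F, hF, h1⟩ := exists_fam hA
    obtain ⟨G, hG, h3, h4⟩ := h'
    exact ⟨_, FamLie.bra hF hG, by rw [toC_bra, ← h1, ← h3], fun Z hZ => by
      rw [h4 Z hZ, mul_zero, zero_mul, sub_self]⟩

/-- A natural family which is the Hodge operator on `X` and vanishes on all varieties of small
level. -/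
lemma exists_sep_nop {w : ℕ} (h : HasHighLevel T X w) :
    ∃ F, FamLie (toH T) F ∧ F X = nop (toH T) X ∧ ∀ Z, LevelLE T Z w → F Z = 0 :=
  exists_sep (h (ofC (nop (toH T) X)) (hodgeLie_of_fam FamLie.nop))

end Pool.Agent.T2h63.AH
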