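import Pool.Agent.T2h63.AH.Fam
import Pool.Agent.T2h63.AH.Defs
import Pool.Agent.Y121.AHS.Conv

/-!
# The Hodge Lie algebra and natural families of operators
-/

open CategoryTheory AlgebraicGeometry TensorProduct

universe u

namespace Pool.Agent.T2h63.AH

open Module
open Pool.Agent.H914 Pool.Agent.H914.VarClass Pool.Agent.H914.VarClass.Obj
  Pool.Agent.H914.WeilCohomology
open Pool.Agent.Y121.AHS (HL IsType toH)
open Pool.Agent.Y121.AH (CW em pq_ind pq_ext)

variable {k : Type u} [Field k] {𝒱 : VarClass k} {ops : CycleOps 𝒱}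
  {T : Pool.Agent.Y121.AHS.HodgeTheory ops} {X Z : 𝒱.Obj}

section Bridge

/-- The space `H(X, ℂ)`. -/
abbrev EX (T : Pool.Agent.Y121.AHS.HodgeTheory ops) (X : 𝒱.Obj) : Type :=
  Pool.Agent.Y121.AHS.Ext T.W.K ℂ (T.W.H X)

/-- The operators on `H(X, ℂ)`. -/
abbrev Oper (T : Pool.Agent.Y121.AHS.HodgeTheory ops) (X : 𝒱.Obj) : Type := LinOp (EX T X)

/-- The conversion of classes. -/
def toX (x : EX T X) : (CW (toH T)).H X := x

/-- The conversion of classes. -/
def ofX (x : (CW (toH T)).H X) : EX T X := x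

/-- The conversion of scalars. -/
def toK (z : ℂ) : (CW (toH T)).K := z

/-- The conversion of scalars. -/
def ofK (z : (CW (toH T)).K) : ℂ := z

/-- The conversion of automorphisms. -/
def toG (τ : ℂ ≃ₐ[T.W.K] ℂ) : ℂ ≃ₐ[(toH T).W.K] ℂ := τ

/-- The conversion of automorphisms. -/
def ofG (τ : ℂ ≃ₐ[(toH T).W.K] ℂ) : ℂ ≃ₐ[T.W.K] ℂ := τ

lemma toX_smul (z : ℂ) (x : EX T X) : toX (z • x) = toK (T := T) z • toX x := rfl

lemma toX_add (x y : EX T X) : toX (x + y) = toX x + toX y := rfl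

lemma toX_sub (x y : EX T X) : toX (x - y) = toX x - toX y := rfl

lemma toX_zero : toX (0 : EX T X) = 0 := rfl

lemma ofX_smul (z : (CW (toH T)).K) (x : (CW (toH T)).H X) : ofX (z • x) = ofK z • ofX x := rfl

lemma ofX_add (x y : (CW (toH T)).H X) : ofX (x + y) = ofX x + ofX y := rfl

lemma ofX_sub (x y : (CW (toH T)).H X) : ofX (x - y) = ofX x - ofX y := rfl

lemma toK_int (m : ℤ) : toK (T := T) (m : ℂ) = (m : (CW (toH T)).K) := rfl

lemma toX_gal (τ : ℂ ≃ₐ[T.W.K] ℂ) (x : EX T X) :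
    toX (extGal τ x : EX T X) = sg (toH T) (toG τ) X (toX x) := rfl

lemma type_iff {p q : ℤ} {x : EX T X} :
    x ∈ T.pq X p q ↔ toX x ∈ (toH T).pq X p q := Iff.rfl

lemma toX_ofX (x : (CW (toH T)).H X) : toX (ofX x) = x := rfl

lemma ofX_toX (x : EX T X) : ofX (toX x) = x := rfl

/-- The conversion of operators. -/
noncomputable def toC (A : Oper T X) : Module.End (CW (toH T)).K ((CW (toH T)).H X) where
  toFun x := toX (A (ofX x))
  map_add' x y := congrArg toX (A.map_add (ofX x) (ofX y))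
  map_smul' z x := congrArg toX (A.map_smul (ofK z) (ofX x))

/-- The conversion of operators. -/
noncomputable def ofC (A : Module.End (CW (toH T)).K ((CW (toH T)).H X)) : Oper T X where
  toFun x := ofX (A (toX x))
  map_add' x y := congrArg ofX (A.map_add (toX x) (toX y))
  map_smul' z x := congrArg ofX (A.map_smul (toK z) (toX x))

lemma toC_apply (A : Oper T X) (x : (CW (toH T)).H X) : toC A x = toX (A (ofX x)) := rfl

lemma ofC_apply (A : Module.End (CW (toH T)).K ((CW (toH T)).H X)) (x : EX T X) :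
    ofC A x = ofX (A (toX x)) := rfl

lemma toC_ofC (A : Module.End (CW (toH T)).K ((CW (toH T)).H X)) : toC (ofC A) = A :=
  LinearMap.ext fun _ => rfl

lemma ofC_toC (A : Oper T X) : ofC (toC A) = A := LinearMap.ext fun _ => rfl

lemma toC_add (A B : Oper T X) : toC (opAdd A B) = toC A + toC B := LinearMap.ext fun _ => rfl

lemma toC_smul (z : ℂ) (A : Oper T X) : toC (opSmul z A) = toK (T := T) z • toC A :=
  LinearMap.ext fun _ => rfl

lemma toC_bra (A B : Oper T X) : toC (opBr A B) = toC A * toC B - toC B * toC A :=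
  LinearMap.ext fun _ => rfl

lemma ofC_add (A B : Module.End (CW (toH T)).K ((CW (toH T)).H X)) :
    ofC (A + B) = opAdd (ofC A) (ofC B) := LinearMap.ext fun _ => rfl

lemma ofC_smul (z : (CW (toH T)).K) (A : Module.End (CW (toH T)).K ((CW (toH T)).H X)) :
    ofC (z • A) = opSmul (ofK z) (ofC A) := LinearMap.ext fun _ => rfl

lemma ofC_bra (A B : Module.End (CW (toH T)).K ((CW (toH T)).H X)) :
    ofC (A * B - B * A) = opBr (ofC A) (ofC B) := LinearMap.ext fun _ => rfl

lemma ofC_zero : ofC (0 : Module.End (CW (toH T)).K ((CW (toH T)).H X)) = 0 :=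
  LinearMap.ext fun _ => rfl

lemma eq_zero_of_ofC {A : Module.End (CW (toH T)).K ((CW (toH T)).H X)}
    (h : IsZeroOp (ofC A)) : A = 0 := by
  have h1 : ofC A = 0 := h
  rw [← toC_ofC A, h1]
  exact LinearMap.ext fun _ => rfl

end Bridge

/-- An operator which is a conjugate of the Hodge operator. -/
lemma conj_eq {τ : ℂ ≃ₐ[T.W.K] ℂ} {A : Oper T X}
    (h : ∀ p q : ℤ, ∀ x ∈ T.pq X p q, IsEig A (p - q) (extGal τ x)) :
    nopc (T := toH T) (toG τ) X = toC A := by
  refine eq_of_sg (toG τ) fun y => ?_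
  refine pq_ind (toH T) (p := fun y => nopc (T := toH T) (toG τ) X (sg (toH T) (toG τ) X y) =
    toC A (sg (toH T) (toG τ) X y)) ?_ ?_ ?_ y
  · intro p q y hy
    rw [nopc_sg (toG τ) hy]
    have h1 : toX (A (extGal τ (ofX y) : EX T X)) =
        toX (((p - q : ℤ) : ℂ) • (extGal τ (ofX y) : EX T X)) :=
      congrArg toX (h p q (ofX y) hy)
    rw [toX_smul, toX_gal, toK_int] at h1
    exact h1.symm
  · intro a b ha hb; rw [map_add, map_add, ha, hb, map_add]
  · rw [map_zero, map_zero, map_zero]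

lemma isConj (τ : ℂ ≃ₐ[(toH T).W.K] ℂ) : ∀ p q : ℤ, ∀ x ∈ T.pq X p q,
    IsEig (ofC (nopc (T := toH T) τ X)) (p - q) (extGal (ofG τ) x : EX T X) := by
  intro p q x hx
  have h1 := nopc_sg τ (type_iff.1 hx)
  have h2 := congrArg ofX h1
  rw [ofX_smul] at h2
  exact h2

/-- The elements of the Hodge Lie algebra extend to natural families. -/
lemma exists_fam {A : Oper T X} (h : LieOf (T.pq X) A) : ∃ F, FamLie (toH T) F ∧ F X = toC A := by
  induction h with
  | conj τ hA => exact ⟨_, FamLie.gen (toG τ), conj_eq hA⟩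
  | add _ _ h h' =>
    obtain ⟨F, hF, h1⟩ := h
    obtain ⟨G, hG, h2⟩ := h'
    refine ⟨_, FamLie.add hF hG, ?_⟩
    rw [toC_add, ← h1, ← h2]
  | smul z _ h =>
    obtain ⟨F, hF, h1⟩ := h
    refine ⟨_, FamLie.smul (toK z) hF, ?_⟩
    rw [toC_smul, ← h1]
  | bracket _ _ h h' =>
    obtain ⟨F, hF, h1⟩ := h
    obtain ⟨G, hG, h2⟩ := h'
    refine ⟨_, FamLie.bra hF hG, ?_⟩
    rw [toC_bra, ← h1, ← h2]

/-- The members of the natural families belong to the Hodge Lie algebra. -/
lemma hodgeLie_of_fam {F : Fam (CW (toH T))} (hF : FamLie (toH T) F) :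
    LieOf (T.pq X) (ofC (F X)) := by
  induction hF with
  | gen τ => exact LieOf.conj (ofG τ) (isConj τ)
  | add _ _ h h' => rw [ofC_add]; exact LieOf.add h h'
  | smul c _ h => rw [ofC_smul]; exact LieOf.smul _ h
  | bra _ _ h h' => rw [ofC_bra]; exact LieOf.bracket h h'

/-- The operators of a type are eigenvectors for the commutator with the Hodge operator. -/
lemma eigen_of_type {j : ℤ} {A : Oper T X} (h : OfType (T.pq X) j A) :
    nop (toH T) X * toC A - toC A * nop (toH T) X =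
      ((2 * j : ℤ) : (CW (toH T)).K) • toC A := by
  refine pq_ext (toH T) ?_
  intro p q x hx
  have h1 : toC A x ∈ (toH T).pq X (p + j) (q - j) := type_iff.1 (h p q (ofX x) hx)
  rw [LinearMap.sub_apply, Module.End.mul_apply, Module.End.mul_apply, nop_pq hx, map_smul,
    nop_pq h1, ← sub_smul, LinearMap.smul_apply, ← Int.cast_sub]
  congr 2
  ring

/-- Classes of types `(p, q)` with negative `p + q` vanish. -/
lemma pq_neg {S : Pool.Agent.Y121.AH.HodgeTheory ops} {p q : ℤ} (h : p + q < 0) {x : (CW S).H X}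
    (hx : x ∈ S.pq X p q) : x = 0 := by
  have h1 : x ∈ ⨆ r : ℤ × ℤ, ⨆ (_ : r ≠ (p, q)), S.pq X r.1 r.2 := by
    have key : ∀ y : (CW S).H X, y ∈ ⨆ r : ℤ × ℤ, ⨆ (_ : r ≠ (p, q)), S.pq X r.1 r.2 := by
      intro y
      refine gr_induction ((CW S).isInternal X)
        (p := fun y => y ∈ ⨆ r : ℤ × ℤ, ⨆ (_ : r ≠ (p, q)), S.pq X r.1 r.2) ?_
        (fun _ _ => Submodule.add_mem _) y
      intro i y hy
      rw [gr_eq] at hy
      refine (iSup_le fun r => ?_ : (⨆ r : {r : ℤ × ℤ // r.1 + r.2 = i}, S.pq X r.1.1 r.1.2) ≤ _) hy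
      refine le_iSup₂_of_le (r : ℤ × ℤ) ?_ le_rfl
      intro h2
      have h3 := r.2
      rw [h2] at h3
      change p + q = i at h3
      omega
    exact key x
  have h2 := Submodule.disjoint_def.1 (S.dec.indep X (p, q))
  exact h2 x hx h1

lemma type_of_eigen {F : Fam (CW (toH T))} (hF : FamLie (toH T) F) {j : ℤ}
    (h : nop (toH T) X * F X - F X * nop (toH T) X = ((2 * j : ℤ) : (CW (toH T)).K) • F X) :
    OfType (T.pq X) j (ofC (F X)) := by
  have key : ∀ (p q : ℤ) (x : (CW (toH T)).H X), x ∈ (toH T).pq X p q →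
      F X x ∈ (toH T).pq X (p + j) (q - j) := by
    intro p q x hx
    by_cases hpq : p + q < 0
    · rw [pq_neg hpq hx, map_zero]
      exact Submodule.zero_mem _
    · obtain ⟨i, hi⟩ := Int.eq_ofNat_of_zero_le (not_lt.1 hpq)
      have h1 : F X x ∈ (CW (toH T)).gr X i := hF.gr ((toH T).dec.le X hi hx)
      have h2 := congrArg (fun B : Module.End (CW (toH T)).K ((CW (toH T)).H X) => B x) h
      simp only [LinearMap.sub_apply, Module.End.mul_apply, LinearMap.smul_apply] at h2
      rw [nop_pq hx, map_smul, sub_eq_iff_eq_add, ← add_smul, ← Int.cast_add] at h2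
      exact pq_of_eigen h1 h2 (p := p + j) (q := q - j) (by omega) (by ring)
  exact fun p q x hx => key p q (toX x) hx

end Pool.Agent.T2h63.AH
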