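import Pool.Agent.T2h63.AH.FF
import Pool.Agent.Y133.Half.Pow

/-!
# Full faithfulness, absolute Hodge classes and products
-/

open CategoryTheory AlgebraicGeometry TensorProduct

universe u v

namespace Pool.Agent.T2h63.AH

open Module
open Pool.Agent.H914 Pool.Agent.H914.VarClass Pool.Agent.H914.VarClass.Obj
  Pool.Agent.H914.WeilCohomology
open Pool.Agent.Y121.AHS (HL IsType toH extMap IsHodge)
open Pool.Agent.Y121.AHS
open Pool.Agent.Y121.AH (CW em em_add em_zero em_smul em_mul em_map em_push em_gr em_injective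
  pq_ind pq_ext hodgePred absPred)
open Pool.Agent.Y133.Half (pw prodCongr prodComm pwAdd θ₁ θ₂ θ₃ ClassPred)

variable {k : Type u} [Field k] {𝒱 : VarClass k} {ops : CycleOps 𝒱}
  {T : Pool.Agent.Y121.AHS.HodgeTheory ops} {𝒜 : ClassSystem T} {X Y Z : 𝒱.Obj}

/-- The system of classes as a property of homogeneous classes. -/
def toPred (𝒜 : ClassSystem T) : ClassPred (toH T).W where
  P X j c := 𝒜.P X j c
  gr h := (𝒜.hodge _ _ _ h).1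
  zero {X j} := by
    have h1 := 𝒜.cyc X j 0 (SmVar.IsCyc.zero _ _)
    rwa [map_zero] at h1
  add h h' := (𝒜.lin _ _).add _ _ h h'
  smul r _ h := (𝒜.lin _ _).smul r _ h
  cl h := 𝒜.cyc _ _ _ h
  mul h h' := 𝒜.mul _ _ _ _ _ h h'
  map f _ _ h := 𝒜.map _ _ f _ _ h
  push f _ _ h _ h' := 𝒜.push _ _ f _ _ _ h h'

/-- The linear maps from `H(X)` to `H(Y)`. -/
abbrev HomH (T : Pool.Agent.Y121.AHS.HodgeTheory ops) (X Y : 𝒱.Obj) : Type :=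
  LinHom T.W.K (T.W.H X) (T.W.H Y)

/-- The map `f` shifts the types by `s`. -/
def Shifts (T : Pool.Agent.Y121.AHS.HodgeTheory ops) (X Y : 𝒱.Obj) (s : ℤ) (f : HomH T X Y) :
    Prop :=
  ∀ a b : ℤ, ∀ x ∈ T.pq X a b, extMap T.W.K ℂ f x ∈ T.pq Y (a + s) (b + s)

lemma Shifts.comp {s t : ℤ} {f : HomH T X Y} {g : HomH T Y Z} (hf : Shifts T X Y s f)
    (hg : Shifts T Y Z t g) : Shifts T X Z (s + t) (g ∘ₗ f) := by
  intro a b x hx
  have h1 := hg _ _ _ (hf a b x hx)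
  have h2 : extMap T.W.K ℂ (g ∘ₗ f) x = extMap T.W.K ℂ g (extMap T.W.K ℂ f x) := by
    have h3 : (g ∘ₗ f).baseChange ℂ = g.baseChange ℂ ∘ₗ f.baseChange ℂ :=
      LinearMap.baseChange_comp ..
    exact congrArg (fun F => F (show ℂ ⊗[T.W.K] T.W.H X from x)) h3
  rw [h2, ← add_assoc, ← add_assoc]
  exact h1

lemma Shifts.zero {s : ℤ} : Shifts T X Y s (0 : HomH T X Y) := by
  intro a b x _
  have h2 : extMap T.W.K ℂ (0 : HomH T X Y) x = 0 := by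
    have h3 : (0 : T.W.H X →ₗ[T.W.K] T.W.H Y).baseChange ℂ = 0 := LinearMap.baseChange_zero
    exact congrArg (fun F => F (show ℂ ⊗[T.W.K] T.W.H X from x)) h3
  rw [h2]
  exact Submodule.zero_mem _

lemma shifts_of_hodge {s : ℤ} {j : ℕ} {c : T.W.H (X.prod Y)} (hj : (j : ℤ) = X.dim + s)
    (hc : IsHodge T (X.prod Y) j c) : Shifts T X Y s (T.W.corr c) := fun _ _ _ hx =>
  type_of_hodge (S := toH T) hj hc hx

lemma hodge_of_shifts {s : ℤ} {f : HomH T X Y} (hf : Shifts T X Y s f) :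
    f = 0 ∨ ∃ (j : ℕ) (c : T.W.H (X.prod Y)), (j : ℤ) = X.dim + s ∧
      IsHodge T (X.prod Y) j c ∧ T.W.corr c = f :=
  exists_hodge (S := toH T) hf

lemma IsCorr.shifts {s : ℤ} {g : HomH T X Y} (h : IsCorr 𝒜 X Y s g) :
    Shifts T X Y s g := by
  obtain ⟨j, c, hj, hc, rfl⟩ := h
  exact shifts_of_hodge hj (𝒜.hodge _ _ _ hc)

theorem hodgeMor_of_motMor {s : ℤ} {p : HomH T X X}
    {q : HomH T Y Y} (hp : IsProj (IsCorr 𝒜 X X 0) p) (hq : IsProj (IsCorr 𝒜 Y Y 0) q)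
    {f : HomH T X Y} (h : InCut p q (IsCorr 𝒜 X Y s) f) : IsMor (T.pq X) (T.pq Y) s p q f := by
  rcases h with rfl | ⟨g, hg, rfl⟩
  · exact ⟨by rw [IsCut, LinearMap.zero_comp, LinearMap.comp_zero], Shifts.zero⟩
  · constructor
    · have h1 : p ∘ₗ p = p := hp.2
      have h2 : q ∘ₗ q = q := hq.2
      have h3 : q ∘ₗ (q ∘ₗ g ∘ₗ p) ∘ₗ p = q ∘ₗ g ∘ₗ p := by
        calc q ∘ₗ (q ∘ₗ g ∘ₗ p) ∘ₗ p = (q ∘ₗ q) ∘ₗ g ∘ₗ (p ∘ₗ p) := by
              simp only [LinearMap.comp_assoc]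
          _ = _ := by rw [h1, h2]
      exact h3.symm
    · have h4 := (hp.1.shifts.comp hg.shifts).comp hq.1.shifts
      rw [zero_add, add_zero] at h4
      exact h4

theorem motMor_of_hodgeMor {s : ℤ} {p : HomH T X X}
    {q : HomH T Y Y} {f : HomH T X Y}
    (habs : AllIn 𝒜 (X.prod Y)) (h : IsMor (T.pq X) (T.pq Y) s p q f) :
    InCut p q (IsCorr 𝒜 X Y s) f := by
  obtain ⟨h1, h2⟩ := h
  rcases hodge_of_shifts h2 with h3 | ⟨j, c, hj, hc, h3⟩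
  · exact Or.inl h3
  · exact Or.inr ⟨f, ⟨j, c, hj, habs j c hc, h3⟩, h1⟩

section converse

lemma abs_push (f : X ⟶ Y) {j l : ℕ} (h : l + X.dim = j + Y.dim) {c : T.W.H X}
    (hc : 𝒜.P X j c) : 𝒜.P Y l (T.W.push f c) := 𝒜.push _ _ f _ _ _ h hc

lemma abs_map (f : X ⟶ Y) {j : ℕ} {c : T.W.H Y}
    (hc : 𝒜.P Y j c) : 𝒜.P X j (T.W.map f c) := 𝒜.map _ _ f _ _ hc

lemma abs_one (X : 𝒱.Obj) : 𝒜.P X 0 (1 : T.W.H X) := by
  have h1 := 𝒜.cyc X 0 _ X.V.fundCycle_mem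
  have h2 : T.W.cl X X.V.fundCycle = 1 := T.W.cl_fund X
  rwa [h2] at h1

lemma abs_zero (X : 𝒱.Obj) (j : ℕ) : 𝒜.P X j (0 : T.W.H X) :=
  (toPred 𝒜).zero

lemma isProjector_id (X : 𝒱.Obj) :
    IsProj (IsCorr 𝒜 X X 0) (LinearMap.id : T.W.H X →ₗ[T.W.K] T.W.H X) :=
  ⟨⟨X.dim, T.W.push (diag X) 1, by simp,
    abs_push (diag X) (j := 0) (by rw [dim_prod]; omega) (abs_one X), by
      ext a
      have h1 := T.W.corr_diag (1 : T.W.H X) a
      rw [one_mul] at h1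
      exact h1⟩, LinearMap.id_comp _⟩

lemma bc_mulLeft {S : Pool.Agent.Y121.AH.HodgeTheory ops} {j : ℕ} {c : S.W.H X}
    (hc : Pool.Agent.Y121.AH.IsHodge S X j c) {a b : ℤ} {x : (CW S).H X}
    (hx : x ∈ S.pq X a b) : bc S (LinearMap.mulLeft S.W.K c) x ∈
      S.pq X (a + ((j : ℤ) - 0)) (b + ((j : ℤ) - 0)) := by
  have h2 : bc S (LinearMap.mulLeft S.W.K c) =
      LinearMap.mulLeft (CW S).K (em S.W ℂ c) := by
    refine ext_em (S := S) fun a => ?_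
    rw [bc_em, LinearMap.mulLeft_apply, LinearMap.mulLeft_apply, ← em_mul]
  rw [h2, LinearMap.mulLeft_apply]
  have h3 := S.dec.mul (X := X) hc.2 hx
  have e1 : (j : ℤ) + a = a + ((j : ℤ) - 0) := by ring
  have e2 : (j : ℤ) + b = b + ((j : ℤ) - 0) := by ring
  rw [e1, e2] at h3
  exact h3

lemma hodge_mul_left {j : ℕ} {c : T.W.H X} (hc : IsHodge T X j c) :
    IsMor (T.pq X) (T.pq X) ((j : ℤ) - 0) LinearMap.id LinearMap.id
      (LinearMap.mulLeft T.W.K c) :=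
  ⟨rfl, fun _ _ _ hx => bc_mulLeft (S := toH T) hc hx⟩

/-- If the realization is full on the motives of `X` then all Hodge classes on `X` are in the
system. -/
theorem abs_of_full {𝒲 : 𝒱.Obj → Prop} (h : FullyFaithfulOn 𝒜 𝒲) (hX : 𝒲 X) :
    AllIn 𝒜 X := by
  intro j c hc
  rcases (h X X hX hX 0 j _ _ (isProjector_id X) (isProjector_id X) _).1 (hodge_mul_left hc) with
    h2 | ⟨_, ⟨l, c', hl, hc', rfl⟩, h2⟩
  · have h3 : (LinearMap.mulLeft T.W.K c : T.W.H X →ₗ[T.W.K] T.W.H X) 1 = 0 := by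
      rw [h2]; rfl
    rw [LinearMap.mulLeft_apply, mul_one] at h3
    rw [h3]
    exact abs_zero X j
  · rw [IsCut, LinearMap.id_comp, LinearMap.comp_id] at h2
    have h3 : (LinearMap.mulLeft T.W.K c : T.W.H X →ₗ[T.W.K] T.W.H X) 1 = T.W.corr c' 1 := by
      rw [h2]
      rfl
    rw [LinearMap.mulLeft_apply, mul_one, corr_apply, map_one, mul_one] at h3
    rw [h3]
    refine abs_push (snd X X) ?_ hc'
    rw [dim_prod]
    omega

lemma abs_iso (e : Nonempty (X ≅ Y)) (h : AllIn 𝒜 X) : AllIn 𝒜 Y := by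
  obtain ⟨e⟩ := e
  intro j c hc
  have h0 : IsHodge T X j (T.W.map e.hom c) :=
    (hodgePred (toH T)).map e.hom hc
  have h1 := abs_map (𝒜 := 𝒜) e.inv (h j _ h0)
  rwa [← T.W.map_comp, e.inv_hom_id, T.W.map_id] at h1

end converse

/-- Full faithfulness on a class stable under products. -/
theorem full_of_abs {𝒲 : 𝒱.Obj → Prop} (h𝒲 : ∀ X Y, 𝒲 X → 𝒲 Y → 𝒲 (X.prod Y))
    (h : ∀ X, 𝒲 X → AllIn 𝒜 X) : FullyFaithfulOn 𝒜 𝒲 := fun X Y hX hY _ _ _ _ hp hq _ =>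
  ⟨motMor_of_hodgeMor (h _ (h𝒲 X Y hX hY)), hodgeMor_of_motMor hp hq⟩

section Prods

variable {𝒵 : Set 𝒱.Obj}

lemma Products.mono {𝒵' : Set 𝒱.Obj} (h𝒵 : 𝒵 ⊆ 𝒵') (h : Products 𝒵 Y) : Products 𝒵' Y := by
  induction h with
  | mem h => exact Products.mem (h𝒵 h)
  | prod _ _ h h' => exact Products.prod h h'
  | iso e _ h => exact Products.iso e h

/-- The standard form of a product of varieties in `𝒵` and copies of `X`. -/
def Std (𝒵 : Set 𝒱.Obj) (X Y : 𝒱.Obj) : Prop :=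
  Products 𝒵 Y ∨ (∃ n, Nonempty (Y ≅ pw X n)) ∨
    ∃ Z n, Products 𝒵 Z ∧ Nonempty (Y ≅ Z.prod (pw X n))

lemma std_zx {Z Z' : 𝒱.Obj} {n : ℕ} (hZ : Products 𝒵 Z) (h : Products 𝒵 Z')
    (e : Nonempty (Y ≅ Z'.prod (pw X n))) : Std 𝒵 X (Z.prod Y) := by
  obtain ⟨e⟩ := e
  exact Or.inr (Or.inr ⟨Z.prod Z', n, hZ.prod h,
    ⟨prodCongr (Iso.refl Z) e ≪≫ (θ₃ Z Z' (pw X n)).symm⟩⟩)

lemma std_z {Z : 𝒱.Obj} (hZ : Products 𝒵 Z) (hY : Std 𝒵 X Y) : Std 𝒵 X (Z.prod Y) := by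
  rcases hY with h | ⟨n, ⟨e⟩⟩ | ⟨Z', n, h, e⟩
  · exact Or.inl (hZ.prod h)
  · exact Or.inr (Or.inr ⟨Z, n, hZ, ⟨prodCongr (Iso.refl Z) e⟩⟩)
  · exact std_zx hZ h e

lemma std_iso {Y' : 𝒱.Obj} (e : Nonempty (Y ≅ Y')) (hY : Std 𝒵 X Y) : Std 𝒵 X Y' := by
  obtain ⟨e⟩ := e
  rcases hY with h | ⟨n, ⟨f⟩⟩ | ⟨Z, n, h, ⟨f⟩⟩
  · exact Or.inl (h.iso ⟨e⟩)
  · exact Or.inr (Or.inl ⟨n, ⟨e.symm ≪≫ f⟩⟩)
  · exact Or.inr (Or.inr ⟨Z, n, h, ⟨e.symm ≪≫ f⟩⟩)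

lemma std_prod {Y' : 𝒱.Obj} (hY : Std 𝒵 X Y) (hY' : Std 𝒵 X Y') : Std 𝒵 X (Y.prod Y') := by
  rcases hY with h | ⟨m, ⟨e⟩⟩ | ⟨Z, m, h, ⟨e⟩⟩
  · exact std_z h hY'
  · rcases hY' with h' | ⟨n, ⟨e'⟩⟩ | ⟨Z', n, h', ⟨e'⟩⟩
    · exact std_iso ⟨prodComm _ _⟩ (std_z h' (Or.inr (Or.inl ⟨m, ⟨e⟩⟩)))
    · exact Or.inr (Or.inl ⟨m + n + 1, ⟨prodCongr e e' ≪≫ pwAdd X m n⟩⟩)
    · exact Or.inr (Or.inr ⟨Z', m + n + 1, h', ⟨prodCongr e e' ≪≫
        θ₁ (pw X m) Z' (pw X n) ≪≫ prodCongr (Iso.refl Z') (pwAdd X m n)⟩⟩)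
  · rcases hY' with h' | ⟨n, ⟨e'⟩⟩ | ⟨Z', n, h', ⟨e'⟩⟩
    · exact std_iso ⟨prodComm _ _⟩ (std_z h' (Or.inr (Or.inr ⟨Z, m, h, ⟨e⟩⟩)))
    · exact Or.inr (Or.inr ⟨Z, m + n + 1, h, ⟨prodCongr e e' ≪≫
        θ₃ Z (pw X m) (pw X n) ≪≫ prodCongr (Iso.refl Z) (pwAdd X m n)⟩⟩)
    · exact Or.inr (Or.inr ⟨Z.prod Z', m + n + 1, h.prod h', ⟨prodCongr e e' ≪≫
        θ₂ Z (pw X m) Z' (pw X n) ≪≫ prodCongr (Iso.refl _) (pwAdd X m n)⟩⟩)

lemma std_of_products (h : Products (insert X 𝒵) Y) : Std 𝒵 X Y := by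
  induction h with
  | @mem Z h =>
    rcases Set.mem_insert_iff.1 h with h | h
    · subst h
      exact Or.inr (Or.inl ⟨0, ⟨Iso.refl _⟩⟩)
    · exact Or.inl (Products.mem h)
  | prod _ _ h h' => exact std_prod h h'
  | iso e _ h => exact std_iso e h

lemma products_pw (X : 𝒱.Obj) (h : X ∈ 𝒵) : ∀ n, Products 𝒵 (pw X n)
  | 0 => Products.mem h
  | n + 1 => (products_pw X h n).prod (Products.mem h)

end Prods

section Split

variable {𝒵 : Set 𝒱.Obj}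

lemma fam_zero {F : Fam (CW (toH T))} (hF : IsDer F) (h : ∀ Z ∈ 𝒵, F Z = 0)
    (hZ : Products 𝒵 Z) : F Z = 0 := by
  induction hZ with
  | mem hZ => exact h _ hZ
  | prod _ _ h h' => exact hF.ext_prod IsDer.zero h h'
  | iso e _ h => exact hF.iso e.some h

/-- **Splitting of the Hodge classes.** -/
theorem splits_aux {S : Pool.Agent.Y121.AH.HodgeTheory ops} {F : Fam (CW S)} (hF : FamLie S F)
    (hX : F X = nop S X) (hZ : F Z = 0) {n j : ℕ} {c : S.W.H (Z.prod (pw X n))}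
    (hc : Pool.Agent.Y121.AH.IsHodge S _ j c) :
    c ∈ Submodule.span S.W.K {x | ∃ (i j : ℕ) (a : S.W.H Z) (b : S.W.H (pw X n)),
      Pool.Agent.Y121.AH.IsHodge S Z i a ∧ Pool.Agent.Y121.AH.IsHodge S (pw X n) j b ∧
        S.W.map (fst Z (pw X n)) a * S.W.map (snd Z (pw X n)) b = x} := by
  have h0 : F (pw X n) = nop S (pw X n) := hF.isDer.ext_pw nop_isDer hX n
  have h1 := split_of_ker (S := S) (X := Z) (Y := pw X n)
    (D₁ := nop S (Z.prod (pw X n)) - F (Z.prod (pw X n))) (D₂ := F (Z.prod (pw X n)))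
    (fun a b => by
      rw [LinearMap.sub_apply, nop_isDer.ext, hF.isDer.ext, hZ, h0, LinearMap.zero_apply,
        map_zero, zero_mul, zero_add, add_sub_cancel_right])
    (fun a b => by
      rw [hF.isDer.ext, hZ, h0, LinearMap.zero_apply, map_zero, zero_mul, zero_add])
    (c := c) (by rw [LinearMap.sub_apply, nop_hodge hc, hF.hodge hc, sub_zero])
    (hF.hodge hc)
  refine Submodule.span_le.2 ?_ h1
  rintro _ ⟨a, ha, b, hb, rfl⟩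
  have ha' := kerN_le ha
  have hb' := kerN_le hb
  refine ClassPred.sp_ind (Q := hodgePred S)
    (q := fun a => S.W.map (fst Z (pw X n)) a * S.W.map (snd Z (pw X n)) b ∈
      (Submodule.span S.W.K _ : Submodule S.W.K (S.W.H (Z.prod (pw X n))))) ?_ ?_ ?_ ha'
  · intro i a ha
    refine ClassPred.sp_ind (Q := hodgePred S)
      (q := fun b => S.W.map (fst Z (pw X n)) a * S.W.map (snd Z (pw X n)) b ∈
        (Submodule.span S.W.K _ : Submodule S.W.K (S.W.H (Z.prod (pw X n))))) ?_ ?_ ?_ hb'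
    · intro l b hb
      exact Submodule.subset_span ⟨i, l, a, b, ha, hb, rfl⟩
    · rw [map_zero, mul_zero]; exact Submodule.zero_mem _
    · intro x y hx hy; rw [map_add, mul_add]; exact Submodule.add_mem _ hx hy
  · rw [map_zero, zero_mul]; exact Submodule.zero_mem _
  · intro x y hx hy; rw [map_add, add_mul]; exact Submodule.add_mem _ hx hy

lemma splits_iff {Y : 𝒱.Obj} {c : T.W.H (Z.prod Y)} : Splits T Z Y c ↔
    c ∈ Submodule.span T.W.K {x | ∃ (i j : ℕ) (a : T.W.H Z) (b : T.W.H Y),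
      IsHodge T Z i a ∧ IsHodge T Y j b ∧ T.W.map (fst Z Y) a * T.W.map (snd Z Y) b = x} := by
  have h : {x | ∃ a b, IsSomeHodge T Z a ∧ IsSomeHodge T Y b ∧
      T.W.map (fst Z Y) a * T.W.map (snd Z Y) b = x} =
      {x | ∃ (i j : ℕ) (a : T.W.H Z) (b : T.W.H Y),
      IsHodge T Z i a ∧ IsHodge T Y j b ∧ T.W.map (fst Z Y) a * T.W.map (snd Z Y) b = x} := by
    ext x
    constructor
    · rintro ⟨a, b, ⟨i, ha⟩, ⟨j, hb⟩, h⟩; exact ⟨i, j, a, b, ha, hb, h⟩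
    · rintro ⟨i, j, a, b, ha, hb, h⟩; exact ⟨a, b, ⟨i, ha⟩, ⟨j, hb⟩, h⟩
  rw [Splits, InProducts, h]

theorem splits {F : Fam (CW (toH T))} (hF : FamLie (toH T) F) (hX : F X = nop (toH T) X)
    (hZ : F Z = 0) {n j : ℕ} {c : T.W.H (Z.prod (pw X n))} (hc : IsHodge T _ j c) :
    Splits T Z (pw X n) c := splits_iff.2 (splits_aux (S := toH T) hF hX hZ hc)

/-- Split classes have a property if the factors have it. -/
lemma pred_of_splits {S : Pool.Agent.Y121.AH.HodgeTheory ops} (Q : ClassPred S.W) {Y : 𝒱.Obj}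
    (h : ∀ j (c : S.W.H (Z.prod Y)), Pool.Agent.Y121.AH.IsHodge S _ j c →
      c ∈ Submodule.span S.W.K {x | ∃ (i j : ℕ) (a : S.W.H Z) (b : S.W.H Y),
        Pool.Agent.Y121.AH.IsHodge S Z i a ∧ Pool.Agent.Y121.AH.IsHodge S Y j b ∧
          S.W.map (fst Z Y) a * S.W.map (snd Z Y) b = x})
    (hZ : ∀ j c, Pool.Agent.Y121.AH.IsHodge S Z j c → Q.P Z j c)
    (hY : ∀ j c, Pool.Agent.Y121.AH.IsHodge S Y j c → Q.P Y j c) (j : ℕ)
    (c : S.W.H (Z.prod Y)) (hc : Pool.Agent.Y121.AH.IsHodge S _ j c) : Q.P (Z.prod Y) j c := by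
  have h1 : c ∈ Q.sp (Z.prod Y) := by
    refine Submodule.span_le.2 ?_ (h j c hc)
    rintro _ ⟨i, l, a, b, ha, hb, rfl⟩
    exact ClassPred.sp_of (Q := Q) (j := i + l)
      (Q.mul (Q.map (fst Z Y) (hZ i a ha)) (Q.map (snd Z Y) (hY l b hb)))
  have h2 := ClassPred.sp_proj h1 j
  rwa [proj_same _ hc.1] at h2

/-- Split classes are in the system if the factors are. -/
lemma abs_of_splits {Y : 𝒱.Obj} (h : ∀ j (c : T.W.H (Z.prod Y)), IsHodge T _ j c → Splits T Z Y c)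
    (hZ : AllIn 𝒜 Z) (hY : AllIn 𝒜 Y) : AllIn 𝒜 (Z.prod Y) := fun j c hc =>
  pred_of_splits (S := toH T) (toPred 𝒜) (fun j c hc => splits_iff.1 (h j c hc)) hZ hY j c hc

end Split

end Pool.Agent.T2h63.AH
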