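import Pool.Agent.T2h63.AH.Trace
import Pool.Agent.N996.FP.FinT

/-!
# The extension of Deligne's theorem: the proof
-/

open CategoryTheory AlgebraicGeometry TensorProduct

universe u v

namespace Pool.Agent.T2h63.AH

open Module
open Pool.Agent.H914 Pool.Agent.H914.VarClass Pool.Agent.H914.VarClass.Obj
  Pool.Agent.H914.WeilCohomology
open Pool.Agent.Y121.AHS
open Pool.Agent.Y121.AH (CW hodgePred absPred absSys)
open Pool.Agent.Y133.Half (pw ClassPred)
open Pool.Agent.N996.FP (RForm IsPolarisation transBetti TotallyRealCentre AdmT admT_c)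

variable {k : Type u} [Field k] {𝒱 : VarClass k} {ops : CycleOps 𝒱}
  {T : Pool.Agent.Y121.AHS.HodgeTheory ops} {𝒜 : ClassSystem T} {X Z : 𝒱.Obj}

/-- The conversion of polarisations. -/
lemma isPolarisation {ψ : RForm T.W X} (h : IsPol T X ψ) : IsPolarisation T X ψ :=
  ⟨h.range, h.conj, fun p q r s x y hx hy => h.orth p q r s x y hx hy, h.pos⟩

lemma trBetti_eq : trBetti T X = transBetti T X := rfl

/-- The admissible exponents. -/
lemma adm {w : ℕ} (hX : HasHighLevel T X w) {ψ : RForm T.W X} {t N : ℕ}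
    (hN : (RealCentre T X ψ ∧ N = max 4 t) ∨ N = max 4 (t ^ 2 / 4)) :
    AdmT T X ψ t N := by
  rcases hN with h | h
  · exact Or.inl h
  · exact Or.inr (Or.inl ⟨traceFree hX, h⟩)

/-- If the Hodge classes on the power `X ^ N` are in the system then they are on all powers. -/
theorem abs_pw {ψ : RForm T.W X} (hψ : IsPolarisation T X ψ) {N : ℕ}
    (hN : AdmT T X ψ (transBetti T X) N) (h : AllIn 𝒜 (pw X (N - 1))) (n : ℕ) :
    AllIn 𝒜 (pw X n) := by
  have h1 := admT_c hψ hN ((toPred 𝒜).sys.csys X)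
    (fun m => Submodule.span_mono fun _ ⟨j, hj⟩ => ⟨j, 𝒜.hodge _ _ _ hj⟩) (by
      refine Submodule.span_le.2 ?_
      rintro c ⟨j, hc⟩
      exact ClassPred.sp_of (Q := toPred 𝒜) (j := j) (h j c hc)) n
  intro j c hc
  have h2 : c ∈ (toPred 𝒜).sp (pw X n) :=
    h1 (ClassPred.sp_of (Q := hodgePred (toH T)) (j := j) hc)
  have h3 := ClassPred.sp_proj h2 j
  have h4 : H914.proj (T.W.isInternal (pw X n)) (2 * j) c = c := proj_same _ hc.1
  have h5 : (toPred 𝒜).P (pw X n) j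
      (H914.proj (T.W.isInternal (pw X n)) (2 * j) c) := h3
  rw [h4] at h5
  exact h5

/-- **The extension of Deligne's theorem.** -/
theorem extension (𝒜 : ClassSystem T) {w : ℕ} {𝒵 : Set 𝒱.Obj}
    (h𝒵 : ∀ Z ∈ 𝒵, LevelLE T Z w) (hX : HasHighLevel T X w)
    {ψ : Pool.Agent.N996.BP.Bil T.W.K (T.W.H X)}
    (hψ : IsPol T X ψ) {t N : ℕ} (ht : t = trBetti T X)
    (hN : (RealCentre T X ψ ∧ N = max 4 t) ∨ N = max 4 (t ^ 2 / 4)) :
    (∀ Z, Products 𝒵 Z → ∀ (n j : ℕ) (c : T.W.H (Z.prod (pw X n))),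
      IsHodge T (Z.prod (pw X n)) j c → Splits T Z (pw X n) c) ∧
    (FullyFaithfulOn 𝒜 (Products (insert X 𝒵)) ↔
      FullyFaithfulOn 𝒜 (Products 𝒵) ∧ AllIn 𝒜 (pw X (N - 1))) := by
  rw [trBetti_eq] at ht
  subst ht
  obtain ⟨F, hF, hFX, hF0⟩ := exists_sep_nop hX
  have hsplit : ∀ Z, Products 𝒵 Z → ∀ (n j : ℕ) (c : T.W.H (Z.prod (pw X n))),
      IsHodge T (Z.prod (pw X n)) j c → Splits T Z (pw X n) c := fun Z hZ n j c hc =>
    splits hF hFX (fam_zero hF.isDer (fun Z hZ => hF0 Z (h𝒵 Z hZ)) hZ) hc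
  refine ⟨hsplit, fun h => ⟨?_, ?_⟩, fun h => ?_⟩
  · intro A B hA hB
    exact h A B (hA.mono (Set.subset_insert X 𝒵)) (hB.mono (Set.subset_insert X 𝒵))
  · exact abs_of_full h (products_pw X (Set.mem_insert X 𝒵) _)
  · refine full_of_abs (fun _ _ => Products.prod) fun Y hY => ?_
    have hpw := abs_pw (isPolarisation hψ) (adm hX hN) h.2
    rcases std_of_products hY with hY | ⟨n, ⟨e⟩⟩ | ⟨Z, n, hZ, ⟨e⟩⟩
    · exact abs_of_full h.1 hY
    · exact abs_iso ⟨e.symm⟩ (hpw n)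
    · exact abs_iso ⟨e.symm⟩ (abs_of_splits (hsplit Z hZ n) (abs_of_full h.1 hZ) (hpw n))

end Pool.Agent.T2h63.AH
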