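import Pool.Agent.T2h63.AH.Level

/-!
# Splitting of Hodge classes on products
-/

open CategoryTheory AlgebraicGeometry TensorProduct

universe u v

namespace Pool.Agent.T2h63.AH

open Module
open Pool.Agent.H914 Pool.Agent.H914.VarClass Pool.Agent.H914.VarClass.Obj
  Pool.Agent.H914.WeilCohomology

variable {k : Type u} [Field k] {𝒱 : VarClass k} {ops : CycleOps 𝒱}

section Kunneth

variable (V : WeilCohomology.{u, v} ops) {X Y : 𝒱.Obj}

lemma kun_tmul (a : V.H X) (b : V.H Y) : kunnethMap (V.map (fst X Y)) (V.map (snd X Y))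
    (a ⊗ₜ[V.K] b) = V.map (fst X Y) a * V.map (snd X Y) b := rfl

/-- Contraction with a functional on the second factor. -/
lemma exists_contr_right (φ : Module.Dual V.K (V.H Y)) : ∃ Φ : V.H (X.prod Y) →ₗ[V.K] V.H X,
    ∀ a b, Φ (V.map (fst X Y) a * V.map (snd X Y) b) = φ b • a := by
  refine ⟨(TensorProduct.lift ((LinearMap.lsmul V.K (V.H X)).flip.compl₂ φ)) ∘ₗ
    (LinearEquiv.ofBijective _ (V.kunneth X Y)).symm.toLinearMap, fun a b => ?_⟩
  rw [← kun_tmul, LinearMap.comp_apply, LinearEquiv.coe_coe]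
  have h1 : (LinearEquiv.ofBijective _ (V.kunneth X Y)).symm
      (kunnethMap (V.map (fst X Y)) (V.map (snd X Y)) (a ⊗ₜ[V.K] b)) = a ⊗ₜ[V.K] b := by
    rw [LinearEquiv.symm_apply_eq]
    rfl
  rw [h1]
  rfl

/-- Contraction with a functional on the first factor. -/
lemma exists_contr_left (φ : Module.Dual V.K (V.H X)) : ∃ Φ : V.H (X.prod Y) →ₗ[V.K] V.H Y,
    ∀ a b, Φ (V.map (fst X Y) a * V.map (snd X Y) b) = φ a • b := by
  refine ⟨(TensorProduct.lift ((LinearMap.lsmul V.K (V.H Y)) ∘ₗ φ)) ∘ₗ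
    (LinearEquiv.ofBijective _ (V.kunneth X Y)).symm.toLinearMap, fun a b => ?_⟩
  rw [← kun_tmul, LinearMap.comp_apply, LinearEquiv.coe_coe]
  have h1 : (LinearEquiv.ofBijective _ (V.kunneth X Y)).symm
      (kunnethMap (V.map (fst X Y)) (V.map (snd X Y)) (a ⊗ₜ[V.K] b)) = a ⊗ₜ[V.K] b := by
    rw [LinearEquiv.symm_apply_eq]
    rfl
  rw [h1]
  rfl

/-- Classes on a product in terms of a basis of the cohomology of the second factor. -/
lemma exists_coef {ι : Type*} [Fintype ι] (b : Basis ι V.K (V.H Y)) (c : V.H (X.prod Y)) :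
    ∃ a : ι → V.H X, c = ∑ i, V.map (fst X Y) (a i) * V.map (snd X Y) (b i) := by
  refine V.kunneth_induction (p := fun c => ∃ a : ι → V.H X,
    c = ∑ i, V.map (fst X Y) (a i) * V.map (snd X Y) (b i)) ?_ ?_ c
  · rintro c d ⟨x, hx⟩ ⟨y, hy⟩
    refine ⟨fun i => x i + y i, ?_⟩
    rw [hx, hy, ← Finset.sum_add_distrib]
    exact Finset.sum_congr rfl fun i _ => by rw [map_add, add_mul]
  · intro i j x _ y _
    refine ⟨fun i => b.repr y i • x, ?_⟩
    conv_lhs => rw [← b.sum_repr y]
    rw [map_sum, Finset.mul_sum]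
    exact Finset.sum_congr rfl fun i _ => by
      rw [map_smul, map_smul, mul_smul_comm, smul_mul_assoc]

end Kunneth

open Pool.Agent.Y121.AH (CW em em_add em_zero em_smul em_mul em_map em_gr em_injective pq_ind
  pq_ext IsHodge hodgePred)

variable {S : Pool.Agent.Y121.AH.HodgeTheory ops} {X Y : 𝒱.Obj}

lemma em_sum {ι : Type*} (s : Finset ι) (f : ι → S.W.H X) :
    em S.W ℂ (∑ i ∈ s, f i) = ∑ i ∈ s, em S.W ℂ (f i) := by
  classical
  induction s using Finset.induction_on with
  | empty => rw [Finset.sum_empty, Finset.sum_empty, em_zero]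
  | insert a s ha ih => rw [Finset.sum_insert ha, Finset.sum_insert ha, em_add, ih]

lemma em_ext (a : S.W.H X) (b : S.W.H Y) :
    em S.W ℂ (S.W.map (fst X Y) a * S.W.map (snd X Y) b) =
      (CW S).map (fst X Y) (em S.W ℂ a) * (CW S).map (snd X Y) (em S.W ℂ b) := by
  rw [em_mul, em_map, em_map]

/-- The rational classes killed by the Hodge operator. -/
noncomputable def kerN (S : Pool.Agent.Y121.AH.HodgeTheory ops) (X : 𝒱.Obj) :
    Submodule S.W.K (S.W.H X) where
  carrier := {a | nop S X (em S.W ℂ a) = 0}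
  add_mem' {a b} ha hb := by
    change nop S X (em S.W ℂ (a + b)) = 0
    rw [em_add, map_add, show nop S X (em S.W ℂ a) = 0 from ha,
      show nop S X (em S.W ℂ b) = 0 from hb, add_zero]
  zero_mem' := by
    change nop S X (em S.W ℂ 0) = 0
    rw [em_zero, map_zero]
  smul_mem' r a ha := by
    change nop S X (em S.W ℂ (r • a)) = 0
    rw [em_smul, map_smul, show nop S X (em S.W ℂ a) = 0 from ha, smul_zero]

lemma mem_kerN {a : S.W.H X} : a ∈ kerN S X ↔ nop S X (em S.W ℂ a) = 0 := Iff.rfl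

/-- The functional on the extension given by a rational functional. -/
lemma exists_dual (φ : Module.Dual S.W.K (S.W.H X)) : ∃ Φ : Module.Dual (CW S).K ((CW S).H X),
    ∀ a, Φ (em S.W ℂ a) = Pool.Agent.Y121.AH.ex S.W ℂ (φ a) := by
  refine ⟨formBase ℂ φ, fun a => ?_⟩
  have h : formBase ℂ φ ((1 : ℂ) ⊗ₜ[S.W.K] a) = 1 * algebraMap S.W.K ℂ (φ a) := formBase_tmul φ 1 a
  rw [one_mul] at h
  exact h

lemma ex_one : Pool.Agent.Y121.AH.ex S.W ℂ 1 = 1 := map_one (algebraMap S.W.K ℂ)

lemma ex_zero : Pool.Agent.Y121.AH.ex S.W ℂ 0 = 0 := map_zero (algebraMap S.W.K ℂ)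

/-- A rational class on a product killed by the two partial Hodge operators splits. -/
theorem split_of_ker {D₁ D₂ : Module.End (CW S).K ((CW S).H (X.prod Y))}
    (h₁ : ∀ a b, D₁ ((CW S).map (fst X Y) a * (CW S).map (snd X Y) b) =
      (CW S).map (fst X Y) (nop S X a) * (CW S).map (snd X Y) b)
    (h₂ : ∀ a b, D₂ ((CW S).map (fst X Y) a * (CW S).map (snd X Y) b) =
      (CW S).map (fst X Y) a * (CW S).map (snd X Y) (nop S Y b))
    {c : S.W.H (X.prod Y)} (hc₁ : D₁ (em S.W ℂ c) = 0) (hc₂ : D₂ (em S.W ℂ c) = 0) :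
    c ∈ Submodule.span S.W.K {x | ∃ a ∈ kerN S X, ∃ b ∈ kerN S Y,
      S.W.map (fst X Y) a * S.W.map (snd X Y) b = x} := by
  classical
  set b := Module.finBasis S.W.K (S.W.H Y) with hb
  obtain ⟨a, ha⟩ := exists_coef S.W b c
  have hec : em S.W ℂ c = ∑ i, (CW S).map (fst X Y) (em S.W ℂ (a i)) *
      (CW S).map (snd X Y) (em S.W ℂ (b i)) := by
    rw [ha, em_sum]
    exact Finset.sum_congr rfl fun i _ => em_ext _ _
  -- the coefficients
  have hker : ∀ i, a i ∈ kerN S X := by
    intro i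
    obtain ⟨φ, hφ⟩ := exists_dual (S := S) (b.coord i)
    obtain ⟨Φ, hΦ⟩ := exists_contr_right (CW S) (X := X) φ
    rw [hec, map_sum] at hc₁
    have h3 := congrArg Φ hc₁
    rw [map_sum, map_zero, Finset.sum_eq_single i] at h3
    · rw [h₁, hΦ, hφ, Basis.coord_apply, Basis.repr_self, Finsupp.single_eq_same, ex_one,
        one_smul] at h3
      exact h3
    · intro j _ hj
      rw [h₁, hΦ, hφ, Basis.coord_apply, Basis.repr_self, Finsupp.single_eq_of_ne (Ne.symm hj),
        ex_zero, zero_smul]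
    · intro h; exact absurd (Finset.mem_univ i) h
  set u := Module.finBasis S.W.K (kerN S X) with hu
  set b' : Fin (finrank S.W.K (kerN S X)) → S.W.H Y :=
    fun j => ∑ i, u.repr ⟨a i, hker i⟩ j • b i with hb'
  have hc : c = ∑ j, S.W.map (fst X Y) (u j : S.W.H X) * S.W.map (snd X Y) (b' j) := by
    have h4 : ∀ i, a i = ∑ j, u.repr ⟨a i, hker i⟩ j • (u j : S.W.H X) := by
      intro i
      have h5 := congrArg (Subtype.val) (u.sum_repr ⟨a i, hker i⟩)
      rw [AddSubmonoidClass.coe_finsetSum] at h5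
      exact h5.symm
    calc c = ∑ i, S.W.map (fst X Y) (∑ j, u.repr ⟨a i, hker i⟩ j • (u j : S.W.H X)) *
          S.W.map (snd X Y) (b i) := by
          rw [ha]
          exact Finset.sum_congr rfl fun i _ => by rw [← h4 i]
      _ = ∑ i, ∑ j, u.repr ⟨a i, hker i⟩ j • (S.W.map (fst X Y) (u j : S.W.H X) *
          S.W.map (snd X Y) (b i)) := by
          refine Finset.sum_congr rfl fun i _ => ?_
          rw [map_sum, Finset.sum_mul]
          exact Finset.sum_congr rfl fun j _ => by rw [map_smul, smul_mul_assoc]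
      _ = ∑ j, ∑ i, u.repr ⟨a i, hker i⟩ j • (S.W.map (fst X Y) (u j : S.W.H X) *
          S.W.map (snd X Y) (b i)) := Finset.sum_comm
      _ = _ := by
          refine Finset.sum_congr rfl fun j _ => ?_
          rw [hb', map_sum, Finset.mul_sum]
          exact Finset.sum_congr rfl fun i _ => by rw [map_smul, mul_smul_comm]
  have hker' : ∀ j, b' j ∈ kerN S Y := by
    intro j
    obtain ⟨ψ, hψ⟩ := LinearMap.exists_extend (u.coord j)
    obtain ⟨φ, hφ⟩ := exists_dual (S := S) ψ
    obtain ⟨Φ, hΦ⟩ := exists_contr_left (CW S) (Y := Y) φ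
    have hec' : em S.W ℂ c = ∑ j, (CW S).map (fst X Y) (em S.W ℂ (u j : S.W.H X)) *
        (CW S).map (snd X Y) (em S.W ℂ (b' j)) := by
      conv_lhs => rw [hc]
      rw [em_sum]
      exact Finset.sum_congr rfl fun i _ => em_ext _ _
    rw [hec', map_sum] at hc₂
    have hψu : ∀ i, ψ (u i : S.W.H X) = u.coord j (u i) := by
      intro i
      rw [← hψ]
      rfl
    have h3 := congrArg Φ hc₂
    rw [map_sum, map_zero, Finset.sum_eq_single j] at h3
    · rw [h₂, hΦ, hφ, hψu, Basis.coord_apply, Basis.repr_self, Finsupp.single_eq_same, ex_one,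
        one_smul] at h3
      exact h3
    · intro i _ hi
      rw [h₂, hΦ, hφ, hψu, Basis.coord_apply, Basis.repr_self,
        Finsupp.single_eq_of_ne (Ne.symm hi), ex_zero, zero_smul]
    · intro h; exact absurd (Finset.mem_univ j) h
  rw [hc]
  exact Submodule.sum_mem _ fun j _ => Submodule.subset_span
    ⟨_, (u j).2, _, hker' j, rfl⟩

section Degrees

lemma em_prj (i : ℕ) (a : S.W.H X) : em S.W ℂ (H914.proj (S.W.isInternal X) i a) =
    H914.proj ((CW S).isInternal X) i (em S.W ℂ a) := by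
  refine gr_induction (S.W.isInternal X) (p := fun a =>
    em S.W ℂ (H914.proj (S.W.isInternal X) i a) =
      H914.proj ((CW S).isInternal X) i (em S.W ℂ a)) ?_ ?_ a
  · intro j a ha
    by_cases hij : j = i
    · subst hij
      rw [proj_same _ ha, proj_same _ (em_gr ha)]
    · rw [proj_ne _ ha hij, proj_ne _ (em_gr ha) hij, em_zero]
  · intro a b ha hb
    rw [map_add, em_add, em_add, map_add, ha, hb]

lemma nop_prj (i : ℕ) (x : (CW S).H X) : nop S X (H914.proj ((CW S).isInternal X) i x) =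
    H914.proj ((CW S).isInternal X) i (nop S X x) := by
  refine gr_induction ((CW S).isInternal X) (p := fun x =>
    nop S X (H914.proj ((CW S).isInternal X) i x) =
      H914.proj ((CW S).isInternal X) i (nop S X x)) ?_ ?_ x
  · intro j x hx
    by_cases hij : j = i
    · subst hij
      rw [proj_same _ hx, proj_same _ (nop_gr hx)]
    · rw [proj_ne _ hx hij, proj_ne _ (nop_gr hx) hij, map_zero]
  · intro a b ha hb
    rw [map_add, map_add, ha, hb, map_add, map_add]

/-- The rational classes killed by the Hodge operator are sums of Hodge classes. -/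
lemma kerN_le : kerN S X ≤ (hodgePred S).sp X := by
  intro a ha
  have h1 := congrArg (fun f : Module.End S.W.K (S.W.H X) => f a)
    (sum_proj (S.W.isInternal X) (N := 2 * X.dim + 1)
      fun i hi => S.W.gr_eq_bot X i (by omega))
  simp only [LinearMap.sum_apply, Module.End.one_apply] at h1
  rw [← h1]
  refine Submodule.sum_mem _ fun i _ => ?_
  have h2 : nop S X (em S.W ℂ (H914.proj (S.W.isInternal X) i a)) = 0 := by
    rw [em_prj, nop_prj, mem_kerN.1 ha, map_zero]
  have h3 : H914.proj (S.W.isInternal X) i a ∈ S.W.gr X i := proj_mem _ i a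
  rcases Nat.even_or_odd' i with ⟨j, hj | hj⟩
  · subst hj
    exact Pool.Agent.Y133.Half.ClassPred.sp_of (Q := hodgePred S) (j := j) (isHodge_of_nop h3 h2)
  · have h4 := eq_zero_of_parity (em_gr h3) (by omega) h2
    rw [em_injective h4]
    exact Submodule.zero_mem _

end Degrees

end Pool.Agent.T2h63.AH
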