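import Pool.Agent.T2h63.AH.Main1
import Pool.Agent.N996.FP.DefsX

/-!
# Varieties of high level have a semisimple Hodge group
-/

open CategoryTheory AlgebraicGeometry TensorProduct

universe u v

namespace Pool.Agent.T2h63.AH

open Module
open Pool.Agent.H914 Pool.Agent.H914.VarClass Pool.Agent.H914.VarClass.Obj
  Pool.Agent.H914.WeilCohomology
open Pool.Agent.Y121.AHS (HL IsType toH)
open Pool.Agent.Y121.AH (CW em em_add em_zero em_smul em_mul em_map em_push em_gr em_injective
  pq_ind pq_ext)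

variable {k : Type u} [Field k] {𝒱 : VarClass k} {ops : CycleOps 𝒱}
  {T : Pool.Agent.Y121.AHS.HodgeTheory ops} {X : 𝒱.Obj}

/-- The trace of a conjugate. -/
lemma trace_semi {L V : Type*} [Field L] [AddCommGroup V] [Module L V] {ι : Type*} [Fintype ι]
    (B : Basis ι L V) (σ : L →+* L) (s t : V →+ V) (hs : ∀ (c : L) x, s (c • x) = σ c • s x)
    (hB : ∀ i, s (B i) = B i) (ht : ∀ i, t (B i) = B i) {A A' : Module.End L V}
    (h : ∀ x, A' x = s (A (t x))) : LinearMap.trace L V A' = σ (LinearMap.trace L V A) := by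
  classical
  have hrepr : ∀ x i, B.repr (s x) i = σ (B.repr x i) := by
    intro x i
    conv_lhs => rw [← B.sum_repr x]
    rw [map_sum, map_sum, Finsupp.finsetSum_apply, Finset.sum_eq_single i]
    · rw [hs, hB, map_smul, B.repr_self, Finsupp.smul_single, smul_eq_mul, mul_one,
        Finsupp.single_eq_same]
    · intro j _ hj
      rw [hs, hB, map_smul, B.repr_self, Finsupp.smul_single, smul_eq_mul, mul_one,
        Finsupp.single_eq_of_ne (Ne.symm hj)]
    · intro h'; exact absurd (Finset.mem_univ i) h'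
  rw [LinearMap.trace_eq_matrix_trace L B, LinearMap.trace_eq_matrix_trace L B, Matrix.trace,
    Matrix.trace, map_sum]
  refine Finset.sum_congr rfl fun i _ => ?_
  rw [Matrix.diag_apply, Matrix.diag_apply, LinearMap.toMatrix_apply, LinearMap.toMatrix_apply,
    h, ht, hrepr]

section

variable {S : Pool.Agent.Y121.AH.HodgeTheory ops} {f : S.W.H X →ₗ[S.W.K] S.W.H X}

/-- A basis of rational classes. -/
lemma exists_basis (S : Pool.Agent.Y121.AH.HodgeTheory ops) (X : 𝒱.Obj) :
    ∃ (n : ℕ) (B : Basis (Fin n) (CW S).K ((CW S).H X)),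
      ∀ (τ : ℂ ≃ₐ[S.W.K] ℂ) i, sg S τ X (B i) = B i := by
  let B : Basis (Fin (finrank S.W.K (S.W.H X))) ℂ (ℂ ⊗[S.W.K] S.W.H X) :=
    (finBasis S.W.K (S.W.H X)).baseChange ℂ
  refine ⟨_, (show Basis (Fin (finrank S.W.K (S.W.H X))) (CW S).K ((CW S).H X) from B),
    fun τ i => ?_⟩
  have h : sig τ (B i) = B i := by
    rw [Basis.baseChange_apply, sig_tmul, map_one]
  exact h

lemma trace_conj (τ : ℂ ≃ₐ[S.W.K] ℂ) {A B : Module.End (CW S).K ((CW S).H X)}
    (hAB : ∀ y, B (sg S τ X y) = sg S τ X (A y))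
    (h : LinearMap.trace (CW S).K ((CW S).H X) (bc S f * A) = 0) :
    LinearMap.trace (CW S).K ((CW S).H X) (bc S f * B) = 0 := by
  obtain ⟨n, b, hb⟩ := exists_basis S X
  have h0 := trace_semi b ((τ : ℂ ≃+* ℂ) : ℂ →+* ℂ) (sg S τ X) (sg S τ.symm X) (sg_smul τ) (hb τ)
    (hb τ.symm) (A := bc S f * A) (A' := bc S f * B) (fun x => by
      rw [Module.End.mul_apply, Module.End.mul_apply]
      have h1 : B x = sg S τ X (A (sg S τ.symm X x)) := by rw [← hAB, sg_symm]
      rw [h1]
      exact (sig_baseChange τ f (A (sg S τ.symm X x))).symm)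
  rw [h0, h]
  exact map_zero τ

lemma bc_nop (hf : ∀ p q : ℤ, ∀ x ∈ S.pq X p q, bc S f x ∈ S.pq X p q) :
    (bc S f : Module.End (CW S).K ((CW S).H X)) * nop S X = nop S X * bc S f := by
  refine pq_ext S fun p q x hx => ?_
  rw [Module.End.mul_apply, Module.End.mul_apply, nop_pq hx, map_smul, nop_pq (hf p q x hx)]

lemma bc_sg (τ : ℂ ≃ₐ[S.W.K] ℂ) (x : (CW S).H X) :
    sg S τ X (bc S f x) = bc S f (sg S τ X x) := sig_baseChange τ f x

lemma bc_fam (hf : ∀ p q : ℤ, ∀ x ∈ S.pq X p q, bc S f x ∈ S.pq X p q) {F : Fam (CW S)}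
    (hF : FamLie S F) : (bc S f : Module.End (CW S).K ((CW S).H X)) * F X = F X * bc S f := by
  induction hF with
  | gen τ =>
    apply LinearMap.ext
    intro x
    have h1 := fun y => congrArg (fun B : Module.End (CW S).K ((CW S).H X) => B y) (bc_nop hf)
    simp only [Module.End.mul_apply] at h1
    rw [Module.End.mul_apply, Module.End.mul_apply, nopc_apply, nopc_apply, ← bc_sg, h1, bc_sg]
  | add _ _ h h' =>
    rw [mul_add, add_mul, h, h']
  | smul c _ h =>
    rw [mul_smul_comm, smul_mul_assoc, h]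
  | @bra F G _ _ h h' =>
    rw [mul_sub, sub_mul, ← mul_assoc, ← mul_assoc, h, h', mul_assoc, mul_assoc, h, h',
      ← mul_assoc, ← mul_assoc, mul_assoc, mul_assoc]

end

lemma trace_high {f : T.W.H X →ₗ[T.W.K] T.W.H X}
    (hf : ∀ p q : ℤ, ∀ x ∈ (toH T).pq X p q, bc (toH T) f x ∈ (toH T).pq X p q) {w : ℕ}
    {A : Oper T X} (hA : HighIdeal (T.pq X) w A) :
    LinearMap.trace (CW (toH T)).K ((CW (toH T)).H X) (bc (toH T) f * toC A) = 0 := by
  induction hA with
  | @mem A hA =>
    obtain ⟨hA, j, hj, hA'⟩ := hA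
    have h1 := eigen_of_type hA'
    have h2 := bc_nop hf
    refine trace_eigen (N := nop (toH T) X) (c := ((2 * j : ℤ) : (CW (toH T)).K)) ?_ ?_
    · rw [Int.cast_ne_zero]
      rcases abs_cases j with h | h <;> omega
    · rw [← mul_assoc, ← h2, mul_assoc, mul_assoc, ← mul_sub, h1, mul_smul_comm]
  | @conj τ A B hAB _ h =>
    exact trace_conj (toG τ) (fun y => congrArg toX (hAB (ofX y))) h
  | @add A B _ _ h h' =>
    rw [toC_add, mul_add, map_add, h, h', add_zero]
  | @smul z A _ h =>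
    rw [toC_smul, mul_smul_comm, map_smul, h, smul_zero]
  | @bracket A B hA _ _ =>
    obtain ⟨F, hF, h1⟩ := exists_fam hA
    have h2 := bc_fam hf hF
    rw [h1] at h2
    have h3 : bc (toH T) f * toC (opBr A B) =
        toC A * (bc (toH T) f * toC B) - (bc (toH T) f * toC B) * toC A := by
      rw [toC_bra, mul_sub, ← mul_assoc, ← mul_assoc, h2, mul_assoc (toC A)]
    rw [h3, map_sub, LinearMap.trace_mul_comm, sub_self]

/-- **Varieties of high level have a semisimple Hodge group.** -/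
theorem traceFree {w : ℕ} (h : HasHighLevel T X w) :
    Pool.Agent.N996.FP.TraceFreeCentre T X := by
  intro f hf F hF
  have h1 : ∀ p q : ℤ, ∀ x ∈ (toH T).pq X p q, bc (toH T) f x ∈ (toH T).pq X p q := hf.1
  have h2 := trace_high h1 (h (ofC (nop (toH T) X)) (hodgeLie_of_fam FamLie.nop))
  have h3 : (show Module.End (CW (toH T)).K ((CW (toH T)).H X) from F) =
      bc (toH T) f * toC (ofC (nop (toH T) X)) := by
    refine pq_ext (toH T) fun p q x hx => ?_
    have h4 : toC (ofC (nop (toH T) X)) x = ((p - q : ℤ) : (CW (toH T)).K) • x := nop_pq hx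
    rw [Module.End.mul_apply, h4, map_smul]
    exact hF p q x hx
  rw [← h3] at h2
  exact h2

end Pool.Agent.T2h63.AH
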